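import Pool.Graph.R_seed8.Helper227.Use

set_option autoImplicit false

/-!
The construction below a c.e. set `E`: true stages, boxes, actions.
-/

namespace Pool.Agent.H651.SJ

open Nat.Partrec (Code)
open Pool.Agent.Helper227 (pre)

/-- stage `s` of the `e`-th c.e. set -/
def W (s e y : ℕ) : Bool := (Code.evaln s (Denumerable.ofNat Code e) y).isSome

/-- The parameters: an enumeration of `E`, the certificates of the computations from `E`, and a
bound. -/
structure Par where
  /-- stage `s` of the enumeration of `E` -/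
  En : ℕ → ℕ → Bool
  /-- the certificates for the oracle string, the argument and the value -/
  q : List Bool × ℕ × ℕ → ℕ → Prop
  /-- the bound -/
  hh : ℕ → ℕ
  En_mono : ∀ {s t y : ℕ}, s ≤ t → En s y = true → En t y = true
  En_bd : ∀ {s y : ℕ}, En s y = true → y < s
  hh_pos : ∀ x, 0 < hh x
  hh_mono : Monotone hh
  hh_unb : ∀ k, ∃ x, k ≤ hh x

variable (P : Par)

/-- the least new element at stage `s`, or `s` if there is none -/
def ell (s : ℕ) : ℕ := (List.range s).findIdx fun y => P.En s y && !P.En (s - 1) y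

/-- stage `t` still looks true at stage `s` -/
def TS (t s : ℕ) : Prop := ∀ y < ell P t, P.En s y = true → P.En t y = true

/-- stage `t` is true -/
def Tru (t : ℕ) : Prop := ∀ s, TS P t s

/-- `c = ⟨w, ⟨m, r⟩⟩` certifies a computation with argument `x` at stage `s` -/
def cert (x s c : ℕ) : Prop :=
  c.unpair.1 ≤ ell P s ∧ P.q (pre (P.En s) c.unpair.1, x, c.unpair.2.unpair.1) c.unpair.2.unpair.2

/-- the computation with argument `x` converges at stage `s` -/
def cmp (x s : ℕ) : Prop := ∃ c < s, cert P x s c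

/-- `m` is the value of the computation with argument `x` at stage `s` -/
def MV (x s m : ℕ) : Prop := ∃ c < s, cert P x s c ∧ (∀ c' < c, ¬ cert P x s c') ∧
  m = c.unpair.2.unpair.1

/-! ### Boxes -/

/-- the name of the instance to which the box `n` belongs -/
def idb (n : ℕ) : ℕ := n.unpair.1
/-- the requirement to which the box `n` belongs -/
def kk (n : ℕ) : ℕ := n.unpair.1.unpair.1
/-- the last believed appointment of higher priority -/
def pp (n : ℕ) : ℕ := n.unpair.1.unpair.2.unpair.1
/-- the last believed confirmation of higher priority -/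
def cc (n : ℕ) : ℕ := n.unpair.1.unpair.2.unpair.2
/-- the argument of the box -/
def xx (n : ℕ) : ℕ := n.unpair.2

/-! ### The construction

The history is `f : ℕ → ℕ`: `f t = 2 * n + 1` says that at stage `t` the number `t` is appointed for
box `n`; `f t = 2 * n + 2` says that at stage `t` the box `n` gets a confirmation. -/

variable (f : ℕ → ℕ)

/-- at stage `t` there is an appointment by a requirement before `k` -/
def AppLt (k t : ℕ) : Prop := f t % 2 = 1 ∧ kk (f t / 2) < k

/-- at stage `t` there is a confirmation by a requirement before `k`, believed at stage `s` -/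
def ConfLt (k t s : ℕ) : Prop :=
  f t ≠ 0 ∧ f t % 2 = 0 ∧ kk (f t / 2 - 1) < k ∧ TS P (pp (f t / 2 - 1)) s

/-- `p` is the last believed appointment before requirement `k` at stage `s` -/
def isTop (s k p : ℕ) : Prop :=
  (p = 0 ∨ (p < s ∧ AppLt f k p ∧ TS P p s)) ∧ ∀ t < s, p < t → ¬ (AppLt f k t ∧ TS P t s)

/-- `c` is the last believed confirmation before requirement `k` at stage `s` -/
def isC (s k c : ℕ) : Prop :=
  (c = 0 ∨ (c < s ∧ ConfLt P f k c s)) ∧ ∀ t < s, c < t → ¬ ConfLt P f k t s

/-- the box `n` belongs to the current instance of its requirement -/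
def Inst (s n : ℕ) : Prop := isTop P f s (kk n) (pp n) ∧ isC P f s (kk n) (cc n)

/-- no number is currently appointed for the box `n` -/
def unapp (s n : ℕ) : Prop := ∀ t < s, f t = 2 * n + 1 → ¬ TS P t s

/-- the box `n` does not block larger arguments -/
def pass (s n : ℕ) : Prop :=
  P.hh (xx n) ≤ idb n ∨ (¬ cmp P (xx n) s ∧ unapp P f s n) ∨
    ∃ t < s, f t = 2 * n + 1 ∧ TS P t s ∧ ∃ r < s, t < r ∧ f r = 2 * n + 2

/-- the box `n` has the attention of its requirement -/
def base (s n : ℕ) : Prop :=
  kk n < s ∧ xx n < s ∧ Inst P f s n ∧ idb n < P.hh (xx n) ∧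
    ∀ x' < xx n, pass P f s (Nat.pair (idb n) x')

/-- an appointment for box `n` is wanted -/
def legA (s n : ℕ) : Prop := base P f s n ∧ cmp P (xx n) s ∧ unapp P f s n

/-- `y` is in the `j`-th set at stage `s` -/
def Cs (s j y : ℕ) : Prop :=
  y < s ∧ f y % 2 = 1 ∧ kk (f y / 2) % 2 = j ∧ ¬ TS P y s ∧
    ∀ r < s, ¬ (y < r ∧ TS P y r ∧ f r ≠ 0 ∧ f r % 2 = 0 ∧ kk (f r / 2 - 1) < kk (f y / 2) ∧
      pp (f r / 2 - 1) < y)

open Classical in
/-- characteristic sequence of the `j`-th set at stage `s` -/
noncomputable def Cb (s j y : ℕ) : Bool := decide (Cs P f s j y)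

/-- the opponent of box `n` has enumerated `t` by stage `s` -/
def Tr (s n t : ℕ) : Prop :=
  ∃ b < s + 1, W s (kk n / 2) (Encodable.encode (pre (Cb P f s (1 - kk n % 2)) b, n, t)) = true

/-- the number of confirmations for box `n` before stage `s` -/
def cnt (n : ℕ) : ℕ → ℕ
  | 0 => 0
  | s + 1 => if f s = 2 * n + 2 then cnt n s + 1 else cnt n s

/-- a confirmation for box `n` is wanted -/
def legC (s n : ℕ) : Prop :=
  base P f s n ∧ (∃ t < s, f t = 2 * n + 1 ∧ TS P t s ∧ (∀ r < s, t < r → f r ≠ 2 * n + 2) ∧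
    Tr P f s n t) ∧ cnt f n s < P.hh (xx n)

/-- the action `a` is wanted at stage `s` -/
def leg (s a : ℕ) : Prop :=
  (a % 2 = 1 ∧ legA P f s (a / 2)) ∨ (a ≠ 0 ∧ a % 2 = 0 ∧ legC P f s (a / 2 - 1))

/-- the requirement of an action -/
def kA (a : ℕ) : ℕ := if a % 2 = 1 then kk (a / 2) else kk (a / 2 - 1)

/-- `f` is the history of a run of the construction -/
def IsRun : Prop := ∀ s, (f s ≠ 0 → leg P f s (f s) ∧ ∀ a, leg P f s a → kA (f s) ≤ kA a) ∧
  ((∃ a, leg P f s a) → f s ≠ 0)

end Pool.Agent.H651.SJ
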