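import Pool.Agent.H651.SJ.Run

set_option autoImplicit false

namespace Pool.Agent.H651.SJ

open Nat.Partrec (Code)
open Pool.Agent.Helper227 (pre)

variable {P : Par} {f : ℕ → ℕ}

/-! ### Counting confirmations -/

theorem cnt_eq (n s : ℕ) : cnt f n s = ((Finset.range s).filter fun r => f r = 2 * n + 2).card := by
  induction s with
  | zero => simp [cnt]
  | succ s ih =>
    rw [cnt, Finset.range_add_one, Finset.filter_insert]
    split_ifs with h
    · rw [Finset.card_insert_of_notMem (by simp), ih]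
    · exact ih

theorem cnt_le (hf : IsRun P f) (n s : ℕ) : cnt f n s ≤ P.hh (xx n) := by
  induction s with
  | zero => simp [cnt]
  | succ s ih =>
    rw [cnt]
    split_ifs with h
    · exact (legC_of hf h).2.2
    · exact ih

theorem conf_encard (hf : IsRun P f) (n : ℕ) : {r | f r = 2 * n + 2}.encard ≤ P.hh (xx n) := by
  by_contra hcon
  push Not at hcon
  have h1 : ((P.hh (xx n) + 1 : ℕ) : ℕ∞) ≤ {r | f r = 2 * n + 2}.encard := by
    push_cast
    exact Order.add_one_le_of_lt hcon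
  obtain ⟨t, ht, htc⟩ := Set.exists_subset_encard_eq h1
  have htf : t.Finite := Set.finite_of_encard_eq_coe htc
  obtain ⟨B, hB⟩ := htf.bddAbove
  have h2 : t ⊆ ((Finset.range (B + 1)).filter fun r => f r = 2 * n + 2 : Finset ℕ) := by
    intro r hr
    simp only [Finset.coe_filter, Finset.mem_range, Set.mem_ofPred_eq]
    exact ⟨Nat.lt_succ_of_le (hB hr), ht hr⟩
  have h3 := Set.encard_le_encard h2
  rw [htc, Set.encard_coe_eq_coe_finsetCard, ← cnt_eq] at h3
  have h4 : P.hh (xx n) + 1 ≤ cnt f n (B + 1) := by exact_mod_cast h3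
  have := cnt_le hf n (B + 1)
  omega

theorem conf_finite (hf : IsRun P f) (n : ℕ) : {r | f r = 2 * n + 2}.Finite :=
  Set.finite_of_encard_le_coe (conf_encard hf n)

/-- the trace of `ψ` -/
def VV (P : Par) (f : ℕ → ℕ) (I x : ℕ) : Set ℕ :=
  {v | ∃ r, ∃ t < r, f t = 2 * Nat.pair I x + 1 ∧ f r = 2 * Nat.pair I x + 2 ∧ TS P t r ∧ MV P x t v}

theorem VV_bound (hf : IsRun P f) (I x : ℕ) : (VV P f I x).encard ≤ P.hh x := by
  classical
  have h1 : ∀ v ∈ VV P f I x, ∃ r, ∃ t < r, f t = 2 * Nat.pair I x + 1 ∧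
      f r = 2 * Nat.pair I x + 2 ∧ TS P t r ∧ MV P x t v := fun v hv => hv
  choose! g hg using h1
  have h2 : Set.InjOn g (VV P f I x) := by
    intro v hv w hw hvw
    obtain ⟨t, h1, h2, -, h3, h4⟩ := hg v hv
    obtain ⟨t', h1', h2', -, h3', h4'⟩ := hg w hw
    rw [← hvw] at h1' h3'
    have : t = t' := app_unique hf h2 h2' h1.le h1'.le h3 h3'
    subst this
    exact MV_unique h4 h4'
  have h3 : Set.MapsTo g (VV P f I x) {r | f r = 2 * Nat.pair I x + 2} := by
    intro v hv
    obtain ⟨t, -, -, h, -⟩ := hg v hv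
    exact h
  have h4 := Set.encard_le_encard_of_injOn h3 h2
  have h5 := conf_encard hf (Nat.pair I x)
  have h6 : xx (Nat.pair I x) = x := by simp [xx]
  rw [h6] at h5
  exact h4.trans h5

/-! ### Finiteness of the actions at true stages -/

/-- appointments before `k` at true stages -/
def FA (P : Par) (f : ℕ → ℕ) (k : ℕ) : Set ℕ := {t | Tru P t ∧ AppLt f k t}

/-- confirmations before `k` with a true top -/
def FC (P : Par) (f : ℕ → ℕ) (k : ℕ) : Set ℕ :=
  {t | f t ≠ 0 ∧ f t % 2 = 0 ∧ kk (f t / 2 - 1) < k ∧ Tru P (pp (f t / 2 - 1))}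

theorem tru_top {s k p : ℕ} (hs : Tru P s) (h : isTop P f s k p) : Tru P p := by
  rcases h.1 with h0 | ⟨h1, -, h2⟩
  · rw [h0]
    exact Tru_zero P
  · exact Tru_of P h1.le h2 hs

theorem top_le {s k p : ℕ} (h : isTop P f s k p) : p ≤ s := by
  rcases h.1 with h0 | ⟨h1, -, -⟩ <;> omega

theorem conf_box (hf : IsRun P f) {t : ℕ} (h0 : f t ≠ 0) (h2 : f t % 2 = 0) :
    legC P f t (f t / 2 - 1) := legC_of hf (by omega)

theorem final_inst (hf : IsRun P f) {k : ℕ} (hA : (FA P f k).Finite) (hC : (FC P f k).Finite) :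
    ∃ p c M, Tru P p ∧ (∀ s, M < s → Tru P s → isTop P f s k p ∧ isC P f s k c) ∧
      ∀ s, M < s → ∀ p' c', isTop P f s k p' → isC P f s k c' → Tru P p' → p' = p ∧ c' = c := by
  obtain ⟨p, hp, hpm⟩ := Set.exists_max_image (insert 0 (FA P f k)) id (hA.insert 0)
    ⟨0, Set.mem_insert _ _⟩
  obtain ⟨c, hc, hcm⟩ := Set.exists_max_image (insert 0 (FC P f k)) id (hC.insert 0)
    ⟨0, Set.mem_insert _ _⟩
  simp only [id] at hpm hcm
  have hTp : Tru P p := by
    rcases hp with h0 | h1
    · rw [h0]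
      exact Tru_zero P
    · exact h1.1
  have htop : ∀ s, max p c < s → isTop P f s k p ∨ ∃ t < s, p < t ∧ AppLt f k t ∧ TS P t s := by
    intro s hs
    by_cases h : ∃ t < s, p < t ∧ AppLt f k t ∧ TS P t s
    · exact Or.inr h
    · left
      push Not at h
      refine ⟨?_, fun t ht hpt hcon => h t ht hpt hcon.1 hcon.2⟩
      rcases hp with h0 | h1
      · exact Or.inl h0
      · exact Or.inr ⟨by omega, h1.2, hTp s⟩
  refine ⟨p, c, max p c, hTp, fun s hs hsT => ⟨?_, ?_, ?_⟩, fun s hs p' c' h1 h2 h3 => ?_⟩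
  · rcases htop s hs with h | ⟨t, h1, h2, h3, h4⟩
    · exact h
    · have := hpm t (Set.mem_insert_of_mem _ ⟨Tru_of P h1.le h4 hsT, h3⟩)
      omega
  · rcases hc with h0 | h1
    · exact Or.inl h0
    · exact Or.inr ⟨by omega, h1.1, h1.2.1, h1.2.2.1, h1.2.2.2 s⟩
  · rintro t ht hct ⟨h1, h2, h3, h4⟩
    have h5 := conf_box hf h1 h2
    have h6 : Tru P (pp (f t / 2 - 1)) :=
      Tru_of P ((top_le h5.1.2.2.1.1).trans ht.le) h4 hsT
    have := hcm t (Set.mem_insert_of_mem _ ⟨h1, h2, h3, h6⟩)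
    omega
  · -- uniqueness
    have hp'le : p' ≤ p := by
      rcases h1.1 with h0 | ⟨-, h4, -⟩
      · omega
      · exact hpm p' (Set.mem_insert_of_mem _ ⟨h3, h4⟩)
    have hpp' : p ≤ p' := by
      by_contra hcon
      push Not at hcon
      rcases hp with h0 | h4
      · omega
      · exact h1.2 p (by omega) hcon ⟨h4.2, hTp s⟩
    have hpe : p' = p := le_antisymm hp'le hpp'
    refine ⟨hpe, ?_⟩
    subst hpe
    have hcc' : c ≤ c' := by
      by_contra hcon
      push Not at hcon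
      rcases hc with h0 | h4
      · omega
      · exact h2.2 c (by omega) hcon ⟨h4.1, h4.2.1, h4.2.2.1, h4.2.2.2 s⟩
    refine le_antisymm ?_ hcc'
    rcases h2.1 with h0 | ⟨h4, h5, h6, h7, h8⟩
    · omega
    · refine hcm c' (Set.mem_insert_of_mem _ ⟨h5, h6, h7, ?_⟩)
      -- the top of the confirmation at `c'` is true
      have h9 := (conf_box hf h5 h6).1.2.2.1.1
      rcases h9.1 with h10 | ⟨h10, h11, h12⟩
      · rw [h10]
        exact Tru_zero P
      · have h13 : ¬ p' < pp (f c' / 2 - 1) := fun hcon =>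
          h1.2 _ (by omega) hcon ⟨⟨h11.1, by have := h11.2; omega⟩, h8⟩
        have h14 : TS P (pp (f c' / 2 - 1)) p' := TS_anti P (by omega) h8
        exact Tru_of P (not_lt.1 h13) h14 hTp

theorem ev_forall {Q : ℕ → ℕ → Prop} (X : ℕ) (h : ∀ x < X, ∃ M, ∀ s, M < s → Q s x) :
    ∃ M, ∀ s, M < s → ∀ x < X, Q s x := by
  induction X with
  | zero => exact ⟨0, fun _ _ x hx => absurd hx (Nat.not_lt_zero x)⟩
  | succ X ih =>
    obtain ⟨M₁, h1⟩ := ih fun x hx => h x (by omega)
    obtain ⟨M₂, h2⟩ := h X (by omega)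
    refine ⟨max M₁ M₂, fun s hs x hx => ?_⟩
    rcases Nat.lt_succ_iff_lt_or_eq.1 hx with h3 | h3
    · exact h1 s (by omega) x h3
    · rw [h3]
      exact h2 s (by omega)

theorem box_eq {n k p c : ℕ} (h1 : kk n = k) (h2 : pp n = p) (h3 : cc n = c) :
    n = Nat.pair (Nat.pair k (Nat.pair p c)) (xx n) := by
  subst h1 h2 h3
  simp [kk, pp, cc, xx]

/-- the data of the final instance of requirement `k` -/
structure Final (P : Par) (f : ℕ → ℕ) (k n t : ℕ) : Prop where
  kkn : kk n = k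
  idlt : idb n < P.hh (xx n)
  trut : Tru P t
  app : f t = 2 * n + 1
  noconf : ∀ r, t < r → f r ≠ 2 * n + 2
  trup : Tru P (pp n)
  ev : ∃ M, ∀ s, M < s → Tru P s → base P f s n

theorem step_main (hf : IsRun P f) {ψ : ℕ →. ℕ} (hψ : Computes P ψ)
    (hI : ∀ I, ∃ x m, I < P.hh x ∧ m ∈ ψ x ∧ m ∉ VV P f I x) {k : ℕ}
    (hA : (FA P f k).Finite) (hC : (FC P f k).Finite) :
    (∃ n t, Final P f k n t) ∧ (FA P f (k + 1)).Finite ∧ (FC P f (k + 1)).Finite := by
  classical
  obtain ⟨p, c, M, hTp, hM1, hM2⟩ := final_inst hf hA hC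
  set I := Nat.pair k (Nat.pair p c) with hIdef
  have nk : ∀ x, kk (Nat.pair I x) = k := fun x => by simp [kk, hIdef]
  have np : ∀ x, pp (Nat.pair I x) = p := fun x => by simp [pp, hIdef]
  have nc : ∀ x, cc (Nat.pair I x) = c := fun x => by simp [cc, hIdef]
  have nx : ∀ x, xx (Nat.pair I x) = x := fun x => by simp [xx]
  have ni : ∀ x, idb (Nat.pair I x) = I := fun x => by simp [idb]
  -- boxes current at large stages
  have hbox : ∀ s, M < s → ∀ n, kk n = k → Inst P f s n → Tru P (pp n) →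
      n = Nat.pair I (xx n) := by
    intro s hs n hn hI' hT
    rw [Inst, hn] at hI'
    obtain ⟨h1, h2⟩ := hM2 s hs _ _ hI'.1 hI'.2 hT
    exact box_eq hn h1 h2
  let Good : ℕ → Prop := fun x => I < P.hh x ∧ (∃ m, m ∈ ψ x) ∧
    ¬ ∃ t, Tru P t ∧ f t = 2 * Nat.pair I x + 1 ∧ ∃ r, t < r ∧ f r = 2 * Nat.pair I x + 2
  have hex : ∃ x, Good x := by
    obtain ⟨x, m, h1, h2, h3⟩ := hI I
    refine ⟨x, h1, ⟨m, h2⟩, ?_⟩
    rintro ⟨t, h4, h5, r, h6, h7⟩
    have h8 := (legA_of hf h5).2.1
    rw [nx] at h8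
    obtain ⟨m', hm'⟩ := MV_of_cmp h8
    have h9 := MV_true hψ h4 hm'
    have h10 := Part.mem_unique h2 h9
    subst h10
    exact h3 ⟨r, t, h6, h5, h7, h4 r, hm'⟩
  obtain ⟨X, hX, hXmin⟩ : ∃ X, Good X ∧ ∀ x < X, ¬ Good x :=
    ⟨Nat.find hex, Nat.find_spec hex, fun x hx => Nat.find_min hex hx⟩
  obtain ⟨hX1, ⟨mX, hX2⟩, hX3⟩ := hX
  -- smaller arguments pass
  obtain ⟨M₁, hM₁⟩ : ∃ M₁, ∀ s, M₁ < s → ∀ x < X, Tru P s → pass P f s (Nat.pair I x) := by
    refine ev_forall (Q := fun s x => Tru P s → pass P f s (Nat.pair I x)) X fun x hx => ?_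
    by_cases h1 : I < P.hh x
    · by_cases h2 : ∃ m, m ∈ ψ x
      · have h3 := hXmin x hx
        have h4 : ∃ t, Tru P t ∧ f t = 2 * Nat.pair I x + 1 ∧
            ∃ r, t < r ∧ f r = 2 * Nat.pair I x + 2 := by
          by_contra hcon
          exact h3 ⟨h1, h2, hcon⟩
        obtain ⟨t, h5, h6, r, h7, h8⟩ := h4
        refine ⟨r, fun s hs _ => Or.inr (Or.inr ⟨t, by omega, h6, h5 s, r, hs, h7, h8⟩)⟩
      · refine ⟨0, fun s _ hs => Or.inr (Or.inl ⟨fun hcon => ?_, fun t ht h3 h4 => ?_⟩)⟩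
        · rw [nx] at hcon
          obtain ⟨m, hm⟩ := MV_of_cmp hcon
          exact h2 ⟨m, MV_true hψ hs hm⟩
        · have h5 := (legA_of hf h3).2.1
          rw [nx] at h5
          obtain ⟨m, hm⟩ := MV_of_cmp h5
          exact h2 ⟨m, MV_true hψ (Tru_of P ht.le h4 hs) hm⟩
    · refine ⟨0, fun s _ _ => Or.inl ?_⟩
      rw [nx, ni]
      omega
  obtain ⟨N₀, hN₀⟩ := cmp_of_dom hψ hX2
  obtain ⟨BA, hBA⟩ := hA.bddAbove
  obtain ⟨BC, hBC⟩ := hC.bddAbove
  -- the box is eventually attended to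
  have hbase : ∀ s, max (max M M₁) (max k X) < s → Tru P s → base P f s (Nat.pair I X) := by
    intro s hs hsT
    refine ⟨by rw [nk]; omega, by rw [nx]; omega, ?_, by rw [nx, ni]; exact hX1, ?_⟩
    · rw [Inst, nk, np, nc]
      exact hM1 s (by omega) hsT
    · intro x hx
      rw [nx] at hx
      rw [ni]
      exact hM₁ s (by omega) x hx hsT
  -- the box does not pass
  have hnpass : ∀ s, N₀ ≤ s → Tru P s → ¬ pass P f s (Nat.pair I X) := by
    intro s hs hsT
    rintro (h1 | ⟨h1, -⟩ | ⟨t, h1, h2, h3, r, h4, h5, h6⟩)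
    · rw [nx, ni] at h1
      omega
    · rw [nx] at h1
      exact h1 (hN₀ s hs)
    · exact hX3 ⟨t, Tru_of P h1.le h3 hsT, h2, r, h5, h6⟩
  -- there is a true appointment
  have htrue : ∃ t, Tru P t ∧ f t = 2 * Nat.pair I X + 1 := by
    by_contra hcon
    push Not at hcon
    obtain ⟨s, hs, hsT⟩ := exists_true P
      (max (max (max M M₁) (max k X)) (max N₀ (max BA BC)) + 1)
    have hb := hbase s (by omega) hsT
    have hlegA : leg P f s (2 * Nat.pair I X + 1) := by
      left
      rw [show (2 * Nat.pair I X + 1) / 2 = Nat.pair I X by omega]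
      refine ⟨by omega, hb, ?_, fun t ht h1 h2 => hcon t (Tru_of P ht.le h2 hsT) h1⟩
      rw [nx]
      exact hN₀ s (by omega)
    have hne : f s ≠ 0 := (hf s).2 ⟨_, hlegA⟩
    obtain ⟨hl, hmin⟩ := (hf s).1 hne
    have hle := hmin _ hlegA
    have hkA : kA (2 * Nat.pair I X + 1) = k := by
      unfold kA
      rw [if_pos (by omega), show (2 * Nat.pair I X + 1) / 2 = Nat.pair I X by omega, nk]
    rw [hkA] at hle
    rcases hl with ⟨h1, h2⟩ | ⟨h0, h1, h2⟩
    · unfold kA at hle
      rw [if_pos h1] at hle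
      rcases Nat.lt_or_eq_of_le hle with h3 | h3
      · have : s ≤ BA := hBA ⟨hsT, h1, h3⟩
        omega
      · have h4 := hbox s (by omega) (f s / 2) h3 h2.1.2.2.1 (tru_top hsT h2.1.2.2.1.1)
        have h5 : f s = 2 * (f s / 2) + 1 := by omega
        rcases lt_trichotomy (xx (f s / 2)) X with h6 | h6 | h6
        · have h7 := hM₁ s (by omega) _ h6 hsT
          rw [← h4] at h7
          rcases h7 with h7 | ⟨h7, -⟩ | ⟨t, h7, h8, h9, -⟩
          · have := h2.1.2.2.2.1
            omega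
          · exact h7 h2.2.1
          · exact h2.2.2 t h7 h8 h9
        · rw [h6] at h4
          exact hcon s hsT (by rw [← h4]; exact h5)
        · have h7 := h2.1.2.2.2.2 X h6
          have h8 : idb (f s / 2) = I := by rw [h4, ni]
          rw [h8] at h7
          exact hnpass s (by omega) hsT h7
    · unfold kA at hle
      rw [if_neg (by omega)] at hle
      have h9 := tru_top hsT h2.1.2.2.1.1
      rcases Nat.lt_or_eq_of_le hle with h3 | h3
      · have : s ≤ BC := hBC ⟨h0, h1, h3, h9⟩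
        omega
      · have h4 := hbox s (by omega) (f s / 2 - 1) h3 h2.1.2.2.1 h9
        obtain ⟨t, h10, h11, h12, h13, -⟩ := h2.2.1
        rcases lt_trichotomy (xx (f s / 2 - 1)) X with h6 | h6 | h6
        · have h7 := hM₁ s (by omega) _ h6 hsT
          rw [← h4] at h7
          exact pass_anti_block hf h11 h10 h12 h2.1.2.2.2.1 h13 h7
        · rw [h6] at h4
          rw [h4] at h11
          exact hcon t (Tru_of P h10.le h12 hsT) h11
        · have h7 := h2.1.2.2.2.2 X h6
          have h8 : idb (f s / 2 - 1) = I := by rw [h4, ni]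
          rw [h8] at h7
          exact hnpass s (by omega) hsT h7
  obtain ⟨t, htT, ht⟩ := htrue
  have hnoconf : ∀ r, t < r → f r ≠ 2 * Nat.pair I X + 2 :=
    fun r hr hcon => hX3 ⟨t, htT, ht, r, hr, hcon⟩
  have hblock : ∀ s, t < s → ¬ pass P f s (Nat.pair I X) := fun s hs =>
    pass_anti_block hf ht hs (htT s) (by rw [nx, ni]; exact hX1) fun r _ hr => hnoconf r hr
  refine ⟨⟨Nat.pair I X, t, nk X, by rw [nx, ni]; exact hX1, htT, ht, hnoconf,
    by rw [np]; exact hTp, _, hbase⟩, ?_, ?_⟩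
  · -- appointments
    have h1 : ∀ x, {t | Tru P t ∧ f t = 2 * Nat.pair I x + 1}.Finite := by
      intro x
      refine Set.Subsingleton.finite fun a ha b hb => ?_
      exact app_unique hf ha.2 hb.2 (le_max_left a b) (le_max_right a b) (ha.1 _) (hb.1 _)
    refine Set.Finite.subset ((hA.union (Set.finite_le_nat (max M t))).union
      (Set.Finite.biUnion (Set.finite_lt_nat X) fun x _ => h1 x)) ?_
    rintro s ⟨hsT, h2, h3⟩
    by_cases h4 : kk (f s / 2) < k
    · exact Or.inl (Or.inl ⟨hsT, h2, h4⟩)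
    · by_cases h5 : s ≤ max M t
      · exact Or.inl (Or.inr h5)
      · right
        have h6 : kk (f s / 2) = k := by omega
        have h7 : f s = 2 * (f s / 2) + 1 := by omega
        have h8 := legA_of hf h7
        have h9 := hbox s (by omega) (f s / 2) h6 h8.1.2.2.1 (tru_top hsT h8.1.2.2.1.1)
        simp only [Set.mem_iUnion]
        refine ⟨xx (f s / 2), ?_, hsT, by rw [← h9]; exact h7⟩
        show xx (f s / 2) < X
        by_contra hcon
        push Not at hcon
        rcases Nat.eq_or_lt_of_le hcon with h10 | h10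
        · rw [← h10] at h9
          rw [h9] at h8
          exact h8.2.2 t (by omega) ht (htT s)
        · have h11 := h8.1.2.2.2.2 X h10
          have h12 : idb (f s / 2) = I := by rw [h9, ni]
          rw [h12] at h11
          exact hblock s (by omega) h11
  · -- confirmations
    refine Set.Finite.subset ((hC.union (Set.finite_le_nat (max M t))).union
      (Set.Finite.biUnion (Set.finite_lt_nat X) fun x _ => conf_finite hf (Nat.pair I x))) ?_
    rintro s ⟨h0, h2, h3, h3'⟩
    by_cases h4 : kk (f s / 2 - 1) < k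
    · exact Or.inl (Or.inl ⟨h0, h2, h4, h3'⟩)
    · by_cases h5 : s ≤ max M t
      · exact Or.inl (Or.inr h5)
      · right
        have h6 : kk (f s / 2 - 1) = k := by omega
        have h7 : f s = 2 * (f s / 2 - 1) + 2 := by omega
        have h8 := legC_of hf h7
        have h9 := hbox s (by omega) (f s / 2 - 1) h6 h8.1.2.2.1 h3'
        simp only [Set.mem_iUnion]
        refine ⟨xx (f s / 2 - 1), ?_, by rw [← h9]; exact h7⟩
        show xx (f s / 2 - 1) < X
        by_contra hcon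
        push Not at hcon
        rcases Nat.eq_or_lt_of_le hcon with h10 | h10
        · rw [← h10] at h9
          rw [h9] at h7
          exact hnoconf s (by omega) h7
        · have h11 := h8.1.2.2.2.2 X h10
          have h12 : idb (f s / 2 - 1) = I := by rw [h9, ni]
          rw [h12] at h11
          exact hblock s (by omega) h11

theorem all_fin (hf : IsRun P f) {ψ : ℕ →. ℕ} (hψ : Computes P ψ)
    (hI : ∀ I, ∃ x m, I < P.hh x ∧ m ∈ ψ x ∧ m ∉ VV P f I x) (k : ℕ) :
    (FA P f k).Finite ∧ (FC P f k).Finite := by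
  induction k with
  | zero =>
    constructor
    · convert Set.finite_empty
      ext t
      simp [FA, AppLt]
    · convert Set.finite_empty
      ext t
      simp [FC]
  | succ k ih => exact (step_main hf hψ hI ih.1 ih.2).2

end Pool.Agent.H651.SJ
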