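import Pool.Agent.H651.SJ.Main

set_option autoImplicit false

namespace Pool.Agent.H651.SJ

open Nat.Partrec (Code)
open Pool.Agent.Helper227 (pre PP.ex_lt PP.all_lt S1 S1.re S1.of_prim S1.ex S1.and S1.or S1.all_lt
  S1.comp S1.of_eq chi recIn_graph recIn_of_graph pre_getD length_pre take_pre)

/-! ### A universal function -/

/-- `k = ⟨w, ⟨m, r⟩⟩` certifies a computation with index and argument `n` from `σ` -/
def Qs (σ : List Bool) (n k : ℕ) : Prop :=
  W k.unpair.2.unpair.2 n.unpair.1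
    (Encodable.encode (σ.take k.unpair.1, n.unpair.2, k.unpair.2.unpair.1)) = true

/-- `k = ⟨w, ⟨m, r⟩⟩` certifies a computation with index and argument `n` from `X` -/
def Qj (X : ℕ → Bool) (n k : ℕ) : Prop :=
  W k.unpair.2.unpair.2 n.unpair.1
    (Encodable.encode (pre X k.unpair.1, n.unpair.2, k.unpair.2.unpair.1)) = true

/-- the value of the computation with the least certificate -/
def Jr (X : ℕ → Bool) (n m : ℕ) : Prop :=
  ∃ k, Qj X n k ∧ (∀ k' < k, ¬ Qj X n k') ∧ m = k.unpair.2.unpair.1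

theorem Jr_unique {X : ℕ → Bool} (n m m' : ℕ) (h : Jr X n m) (h' : Jr X n m') : m = m' := by
  obtain ⟨k, h1, h2, rfl⟩ := h
  obtain ⟨k', h1', h2', rfl⟩ := h'
  rcases lt_trichotomy k k' with hlt | heq | hlt
  · exact absurd h1 (h2' _ hlt)
  · rw [heq]
  · exact absurd h1' (h2 _ hlt)

/-- a universal partial function recursive in `X` -/
noncomputable def JJ (X : ℕ → Bool) : ℕ →. ℕ := ofRel (Jr X)

theorem Qs_pre {X : ℕ → Bool} {n k w : ℕ} (h : k ≤ w) : Qs (pre X w) n k ↔ Qj X n k := by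
  unfold Qs Qj
  rw [take_pre X w _ ((Nat.unpair_left_le k).trans h)]

theorem Qs_prim : PrimrecPred fun z : (List Bool × ℕ) × ℕ => Qs z.1.1 z.1.2 z.2 := by
  unfold Qs
  have k1 : Primrec fun z : (List Bool × ℕ) × ℕ => z.2.unpair.1 :=
    Primrec.fst.comp (Primrec.unpair.comp Primrec.snd)
  have k2 : Primrec fun z : (List Bool × ℕ) × ℕ => z.2.unpair.2.unpair.1 :=
    Primrec.fst.comp (Primrec.unpair.comp (Primrec.snd.comp (Primrec.unpair.comp Primrec.snd)))
  have k3 : Primrec fun z : (List Bool × ℕ) × ℕ => z.2.unpair.2.unpair.2 :=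
    Primrec.snd.comp (Primrec.unpair.comp (Primrec.snd.comp (Primrec.unpair.comp Primrec.snd)))
  have n1 : Primrec fun z : (List Bool × ℕ) × ℕ => z.1.2.unpair.1 :=
    Primrec.fst.comp (Primrec.unpair.comp (Primrec.snd.comp Primrec.fst))
  have n2 : Primrec fun z : (List Bool × ℕ) × ℕ => z.1.2.unpair.2 :=
    Primrec.snd.comp (Primrec.unpair.comp (Primrec.snd.comp Primrec.fst))
  have s : Primrec fun z : (List Bool × ℕ) × ℕ => z.1.1.take z.2.unpair.1 :=
    Primrec.list_take.comp k1 (Primrec.fst.comp Primrec.fst)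
  exact Primrec.eq.comp (W_prim k3 n1 (Primrec.encode.comp (s.pair (n2.pair k2))))
    (Primrec.const true)

theorem JJ_rec (X : ℕ → Bool) : Nat.RecursiveIn {chi X} (JJ X) := by
  refine recIn_of_graph (G := fun z : List Bool × ℕ × ℕ => ∃ k < z.1.length, Qs z.1 z.2.1 k ∧
    (∀ k' < k, ¬ Qs z.1 z.2.1 k') ∧ z.2.2 = k.unpair.2.unpair.1) ?_ ?_
  · refine S1.of_prim ?_
    refine PP.ex_lt (p := fun (z : List Bool × ℕ × ℕ) k => Qs z.1 z.2.1 k ∧
      (∀ k' < k, ¬ Qs z.1 z.2.1 k') ∧ z.2.2 = k.unpair.2.unpair.1) ?_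
      (Primrec.list_length.comp Primrec.fst)
    refine PrimrecPred.and ?_ (PrimrecPred.and ?_ ?_)
    · exact Qs_prim.comp (((Primrec.fst.comp Primrec.fst).pair
        (Primrec.fst.comp (Primrec.snd.comp Primrec.fst))).pair Primrec.snd)
    · refine PP.all_lt (p := fun (z : (List Bool × ℕ × ℕ) × ℕ) k' => ¬ Qs z.1.1 z.1.2.1 k') ?_
        Primrec.snd
      refine PrimrecPred.not ?_
      exact Qs_prim.comp (((Primrec.fst.comp (Primrec.fst.comp Primrec.fst)).pair
        (Primrec.fst.comp (Primrec.snd.comp (Primrec.fst.comp Primrec.fst)))).pair Primrec.snd)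
    · exact Primrec.eq.comp (Primrec.snd.comp (Primrec.snd.comp Primrec.fst))
        (Primrec.fst.comp (Primrec.unpair.comp (Primrec.snd.comp (Primrec.unpair.comp
          Primrec.snd))))
  · intro n m
    unfold JJ
    rw [mem_ofRel Jr_unique]
    constructor
    · rintro ⟨k, h1, h2, h3⟩
      refine ⟨k + 1, k, by simp, (Qs_pre (Nat.le_succ k)).2 h1, fun k' hk' hcon => ?_, h3⟩
      exact h2 k' hk' ((Qs_pre (by omega)).1 hcon)
    · rintro ⟨w, k, h0, h1, h2, h3⟩
      simp only [length_pre] at h0 h1 h2 h3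
      refine ⟨k, (Qs_pre h0.le).1 h1, fun k' hk' hcon => h2 k' hk' ((Qs_pre (by omega)).2 hcon), h3⟩

theorem JJ_univ {X : ℕ → Bool} {ψ : ℕ →. ℕ} (hψ : Nat.RecursiveIn {chi X} ψ) :
    ∃ e, ∀ n, ψ n = JJ X (Nat.pair e n) := by
  obtain ⟨G, hG, -, eG⟩ := recIn_graph hψ
  obtain ⟨e, he⟩ := exists_index hG.re
  refine ⟨e, fun n => ?_⟩
  have key : ∀ k, Qj X (Nat.pair e n) k → k.unpair.2.unpair.1 ∈ ψ n := by
    intro k hk
    unfold Qj at hk
    simp only [Nat.unpair_pair] at hk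
    exact (eG _ _).2 ⟨k.unpair.1, (he (pre X k.unpair.1, n, k.unpair.2.unpair.1)).2 ⟨_, hk⟩⟩
  ext m
  unfold JJ
  rw [mem_ofRel Jr_unique]
  constructor
  · intro hm
    obtain ⟨w, hw⟩ := (eG _ _).1 hm
    obtain ⟨r, hr⟩ := (he _).1 hw
    have hex : ∃ k, Qj X (Nat.pair e n) k := by
      refine ⟨Nat.pair w (Nat.pair m r), ?_⟩
      unfold Qj
      simp only [Nat.unpair_pair]
      exact hr
    classical
    refine ⟨Nat.find hex, Nat.find_spec hex, fun k' hk' => Nat.find_min hex hk', ?_⟩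
    exact Part.mem_unique hm (key _ (Nat.find_spec hex))
  · rintro ⟨k, h1, -, rfl⟩
    exact key k h1

end Pool.Agent.H651.SJ
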