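import Pool.Graph.R_seed8.Helper227.Use

set_option autoImplicit false

/-!
Tools for computable functions and computably enumerable predicates in the `S1` normal form.
-/

namespace Pool.Agent.H651.SJ

open Nat.Partrec (Code)
open Pool.Agent.Helper227

/-- the partial function with a given single-valued graph -/
noncomputable def ofRel (Q : ℕ → ℕ → Prop) : ℕ →. ℕ := fun n => ⟨∃ m, Q n m, fun h => h.choose⟩

theorem mem_ofRel {Q : ℕ → ℕ → Prop} (hQ : ∀ n m m', Q n m → Q n m' → m = m') (n m : ℕ) :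
    m ∈ ofRel Q n ↔ Q n m := by
  constructor
  · rintro ⟨h, rfl⟩
    exact h.choose_spec
  · intro h
    refine ⟨⟨m, h⟩, ?_⟩
    exact hQ _ _ _ (Exists.choose_spec (⟨m, h⟩ : ∃ m, Q n m)) h

/-- a total function with a computably enumerable graph is computable -/
theorem computable_of_S1 {f : ℕ → ℕ} (h : S1 fun x : ℕ × ℕ => f x.1 = x.2) : Computable f := by
  obtain ⟨q, ⟨hd, hq⟩, hm, he⟩ := h
  have hg : Primrec fun z : ℕ × ℕ => ((z.1, z.2.unpair.1), z.2.unpair.2) :=
    (Primrec.fst.pair (Primrec.fst.comp (Primrec.unpair.comp Primrec.snd))).pair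
      (Primrec.snd.comp (Primrec.unpair.comp Primrec.snd))
  have h1 : Partrec fun a : ℕ => Nat.rfind fun k =>
      Part.some (@decide (q (a, k.unpair.1) k.unpair.2) (hd ((a, k.unpair.1), k.unpair.2))) := by
    apply Partrec.rfind
    have := hq.comp hg
    exact (Primrec.to_comp this).partrec
  have h2 : Partrec fun a : ℕ => (Nat.rfind fun k =>
      Part.some (@decide (q (a, k.unpair.1) k.unpair.2) (hd ((a, k.unpair.1), k.unpair.2)))).map
        fun k => k.unpair.1 :=
    h1.map (Primrec.to_comp (Primrec.fst.comp (Primrec.unpair.comp Primrec.snd)))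
  refine h2.of_eq_tot fun a => ?_
  rw [Part.mem_map_iff]
  have hdom : (Nat.rfind fun k =>
      Part.some (@decide (q (a, k.unpair.1) k.unpair.2)
        (hd ((a, k.unpair.1), k.unpair.2)))).Dom := by
    rw [Nat.rfind_dom]
    obtain ⟨n, hn⟩ := (he (a, f a)).1 rfl
    refine ⟨Nat.pair (f a) n, ?_, fun _ => trivial⟩
    simpa using hn
  obtain ⟨k, hk⟩ := Part.dom_iff_mem.1 hdom
  refine ⟨k, hk, ?_⟩
  have h3 := Nat.rfind_spec hk
  have h4 : q (a, k.unpair.1) k.unpair.2 := by simpa using h3
  exact ((he (a, k.unpair.1)).2 ⟨_, h4⟩).symm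

/-- computably enumerable predicates have indices -/
theorem exists_index {α : Type*} [Primcodable α] {p : α → Prop} (hp : REPred p) :
    ∃ e : ℕ, ∀ a : α, p a ↔ ∃ s, (Code.evaln s (Denumerable.ofNat Code e)
      (Encodable.encode a)).isSome = true := by
  obtain ⟨c, hc⟩ := Nat.Partrec.Code.exists_code.1 hp
  refine ⟨Encodable.encode c, fun a => ?_⟩
  rw [Denumerable.ofNat_encode]
  have h1 : (c.eval (Encodable.encode a)).Dom ↔ p a := by
    rw [hc]
    simp [Part.assert]
  rw [← h1]
  constructor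
  · intro h
    obtain ⟨y, hy⟩ := Part.dom_iff_mem.1 h
    obtain ⟨k, hk⟩ := Nat.Partrec.Code.evaln_complete.1 hy
    exact ⟨k, Option.isSome_iff_exists.2 ⟨y, hk⟩⟩
  · rintro ⟨n, hn⟩
    obtain ⟨y, hy⟩ := Option.isSome_iff_exists.1 hn
    exact Part.dom_iff_mem.2 ⟨y, Nat.Partrec.Code.evaln_sound hy⟩

/-- finite predicates are primitive recursive -/
theorem prim_of_finite {α : Type*} [Primcodable α] {p : α → Prop} (hp : {a | p a}.Finite) :
    PrimrecPred p := by
  have h : PrimrecPred fun a => ∃ b ∈ (fun _ : α => hp.toFinset.toList) a, a = b :=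
    PP.ex_mem (p := fun a b => a = b) Primrec.eq (Primrec.const _)
  refine h.of_eq fun a => ?_
  simp

/-- the computable functions and `S1` -/
theorem S1_le_comp {α : Type*} [Primcodable α] {g : ℕ → ℕ} (hg : Computable g) {m n : α → ℕ}
    (hm : Primrec m) (hn : Primrec n) : S1 fun a => m a ≤ g (n a) := by
  have h : S1 fun z : ℕ × ℕ => z.1 ≤ z.2 := S1.of_prim Primrec.nat_le
  exact h.comp_computable (f := fun a => (m a, g (n a))) (hm.to_comp.pair (hg.comp hn.to_comp))

theorem S1_gt_comp {α : Type*} [Primcodable α] {g : ℕ → ℕ} (hg : Computable g) {m n : α → ℕ}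
    (hm : Primrec m) (hn : Primrec n) : S1 fun a => g (n a) < m a := by
  have h : S1 fun z : ℕ × ℕ => z.2 < z.1 := S1.of_prim (Primrec.nat_lt.comp Primrec.snd Primrec.fst)
  exact h.comp_computable (f := fun a => (m a, g (n a))) (hm.to_comp.pair (hg.comp hn.to_comp))

/-! ### A slow primitive recursive order below a computable order -/

/-- the slowed down version of a function with a given code -/
def slow (c : Code) (x : ℕ) : ℕ :=
  ((List.range (x + 1)).map fun z => (Code.evaln x c z).getD 0).foldr max 1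

theorem foldr_max_le {L : List ℕ} {b : ℕ} : L.foldr max 1 ≤ b ↔ 1 ≤ b ∧ ∀ v ∈ L, v ≤ b := by
  induction L with
  | nil => simp
  | cons a L ih =>
    simp only [List.foldr_cons, max_le_iff, ih, List.mem_cons, forall_eq_or_imp]
    tauto

theorem slow_le_iff {c : Code} {x b : ℕ} :
    slow c x ≤ b ↔ 1 ≤ b ∧ ∀ z ≤ x, (Code.evaln x c z).getD 0 ≤ b := by
  unfold slow
  rw [foldr_max_le]
  simp only [List.mem_map, List.mem_range, forall_exists_index, and_imp, forall_apply_eq_imp_iff₂,
    Nat.lt_succ_iff]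

theorem slow_pos (c : Code) (x : ℕ) : 1 ≤ slow c x := (slow_le_iff.1 le_rfl).1

theorem slow_mono (c : Code) : Monotone (slow c) := by
  intro x y hxy
  rw [slow_le_iff]
  refine ⟨slow_pos _ _, fun z hz => ?_⟩
  have h1 := (slow_le_iff.1 (le_refl (slow c y))).2 z (hz.trans hxy)
  cases h : Code.evaln x c z with
  | none => simp
  | some w =>
    have h2 := Code.evaln_mono hxy (Option.mem_def.2 h)
    rw [Option.mem_def] at h2
    rw [h2] at h1
    simpa using h1

theorem slow_le {c : Code} {h : ℕ → ℕ} (hc : ∀ z, c.eval z = Part.some (h z)) (hm : Monotone h)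
    (hp : ∀ z, 1 ≤ h z) (x : ℕ) : slow c x ≤ h x := by
  rw [slow_le_iff]
  refine ⟨hp x, fun z hz => ?_⟩
  cases h1 : Code.evaln x c z with
  | none => simp
  | some w =>
    have h2 := Code.evaln_sound (Option.mem_def.2 h1)
    rw [hc, Part.mem_some_iff] at h2
    rw [h2]
    exact hm hz

theorem slow_unb {c : Code} {h : ℕ → ℕ} (hc : ∀ z, c.eval z = Part.some (h z))
    (hu : ∀ k, ∃ z, k ≤ h z) (k : ℕ) : ∃ x, k ≤ slow c x := by
  obtain ⟨z, hz⟩ := hu k
  have h1 : h z ∈ c.eval z := by rw [hc]; exact Part.mem_some _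
  obtain ⟨n, hn⟩ := Code.evaln_complete.1 h1
  refine ⟨max n z, ?_⟩
  have h2 := (slow_le_iff.1 (le_refl (slow c (max n z)))).2 z (le_max_right _ _)
  have h3 := Code.evaln_mono (le_max_left n z) hn
  rw [Option.mem_def] at h3
  rw [h3] at h2
  exact hz.trans (by simpa using h2)

theorem slow_prim (c : Code) : Primrec (slow c) := by
  have h1 : Primrec fun z : ℕ × ℕ => Code.evaln z.1 c z.2 :=
    Code.primrec_evaln.comp ((Primrec.fst.pair (Primrec.const c)).pair Primrec.snd)
  have h2 : Primrec fun z : ℕ × ℕ => (Code.evaln z.1 c z.2).getD 0 :=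
    Primrec.option_getD.comp h1 (Primrec.const 0)
  have h3 : Primrec fun x : ℕ => (List.range (x + 1)).map fun z => (Code.evaln x c z).getD 0 :=
    Primrec.list_map (Primrec.list_range.comp Primrec.succ) h2
  have h4 : Primrec₂ fun (_ : ℕ) (z : ℕ × ℕ) => max z.1 z.2 :=
    Primrec.nat_max.comp (Primrec.fst.comp Primrec.snd) (Primrec.snd.comp Primrec.snd)
  exact Primrec.list_foldr h3 (Primrec.const 1) h4

end Pool.Agent.H651.SJ
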