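import Pool.Agent.H651.SJ.RunEx
import Pool.Agent.H651.SJ.Tot

set_option autoImplicit false

namespace Pool.Agent.H651.SJ

open Nat.Partrec (Code)
open Pool.Agent.Helper227 (pre PP.ex_lt PP.all_lt S1 S1.re S1.of_prim S1.ex S1.and S1.or S1.all_lt
  S1.comp S1.of_eq chi recIn_graph recIn_of_graph pre_getD length_pre)

variable {P : Par}

section sets
variable (hP : P.Prim)
include hP

/-- the sets are computably enumerable -/
theorem CC_S1 (j : ℕ) : S1 fun y => CC P (run P) j y := by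
  unfold CC
  refine S1.ex (S1.of_prim ?_)
  have h := Cs_prim hP (α := ℕ × ℕ) ((hist_prim hP).comp Primrec.snd) Primrec.snd
    (Primrec.const j) Primrec.fst
  exact h.of_eq fun z => Cs_hist P

omit hP in
theorem CC_iff_of_drop {j y s : ℕ} (h : ¬ TS P y s) : CC P (run P) j y ↔ Cs P (run P) s j y := by
  refine ⟨?_, fun h' => ⟨s, h'⟩⟩
  rintro ⟨s', hs'⟩
  rcases Nat.le_total s' s with h1 | h1
  · exact Cs_mono h1 hs'
  · obtain ⟨h2, h3, h4, h5, h6⟩ := hs'
    have hys : y < s := by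
      by_contra hcon
      push Not at hcon
      exact h (TS_of_le P hcon)
    exact ⟨hys, h3, h4, h, fun r hr => h6 r (by omega)⟩

/-- the sets are Turing reducible to `E` -/
theorem CC_red (j : ℕ) : Nat.RecursiveIn {chi (EE P)} (chi (CB P (run P) j)) := by
  refine recIn_of_graph (G := fun z : List Bool × ℕ × ℕ =>
    (z.2.2 = 0 ∧ ell P z.2.1 ≤ z.1.length ∧ ∀ y < ell P z.2.1,
      (P.En z.2.1 y = true ∨ ¬ z.1.getD y false = true)) ∨
    ∃ s, ¬ TS P z.2.1 s ∧ ((Cs P (gf (hist P s)) s j z.2.1 ∧ z.2.2 = 1) ∨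
      (¬ Cs P (gf (hist P s)) s j z.2.1 ∧ z.2.2 = 0))) ?_ ?_
  · refine S1.or (S1.of_prim ?_) (S1.ex (S1.of_prim ?_))
    · have t : Primrec fun z : List Bool × ℕ × ℕ => z.2.1 := Primrec.fst.comp Primrec.snd
      refine PrimrecPred.and (Primrec.eq.comp (Primrec.snd.comp Primrec.snd) (Primrec.const 0))
        (PrimrecPred.and (Primrec.nat_le.comp (ell_prim hP t)
          (Primrec.list_length.comp Primrec.fst)) ?_)
      refine PP.all_lt (p := fun (z : List Bool × ℕ × ℕ) y =>
        P.En z.2.1 y = true ∨ ¬ z.1.getD y false = true) ?_ (ell_prim hP t)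
      refine PrimrecPred.or (Primrec.eq.comp (hP.En.comp (t.comp Primrec.fst) Primrec.snd)
        (Primrec.const true)) (PrimrecPred.not (Primrec.eq.comp ?_ (Primrec.const true)))
      have h := Primrec.option_getD.comp (Primrec.list_getElem?.comp
        (Primrec.fst.comp (Primrec.fst (α := List Bool × ℕ × ℕ) (β := ℕ))) Primrec.snd)
        (Primrec.const false)
      exact h.of_eq fun z => by simp [List.getD]
    · have t : Primrec fun z : (List Bool × ℕ × ℕ) × ℕ => z.1.2.1 :=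
        Primrec.fst.comp (Primrec.snd.comp Primrec.fst)
      have m : Primrec fun z : (List Bool × ℕ × ℕ) × ℕ => z.1.2.2 :=
        Primrec.snd.comp (Primrec.snd.comp Primrec.fst)
      have hC : PrimrecPred fun z : (List Bool × ℕ × ℕ) × ℕ =>
          Cs P (gf (hist P z.2)) z.2 j z.1.2.1 :=
        Cs_prim hP ((hist_prim hP).comp Primrec.snd) Primrec.snd (Primrec.const j) t
      exact PrimrecPred.and (PrimrecPred.not (TS_prim hP t Primrec.snd)) (PrimrecPred.or
        (PrimrecPred.and hC (Primrec.eq.comp m (Primrec.const 1)))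
        (PrimrecPred.and (PrimrecPred.not hC) (Primrec.eq.comp m (Primrec.const 0))))
  · intro t m
    simp only [chi, Part.mem_some_iff, Cs_hist]
    constructor
    · intro hm
      by_cases ht : Tru P t
      · refine ⟨ell P t, Or.inl ⟨?_, by simp, fun y hy => ?_⟩⟩
        · have h1 := not_CC_of_true (P := P) (f := run P) (j := j) ht
          rw [← CB_iff, Bool.not_eq_true] at h1
          rw [hm, h1]
          rfl
        · rw [pre_getD _ _ _ _ hy, EE_eq_of_true P ht hy]
          exact em _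
      · unfold Tru at ht
        push Not at ht
        obtain ⟨s, hs⟩ := ht
        refine ⟨0, Or.inr ⟨s, hs, ?_⟩⟩
        by_cases hC : CC P (run P) j t
        · left
          refine ⟨(CC_iff_of_drop hs).1 hC, ?_⟩
          rw [hm, CB_iff.2 hC]
          rfl
        · right
          refine ⟨fun h => hC ⟨s, h⟩, ?_⟩
          rw [← CB_iff, Bool.not_eq_true] at hC
          rw [hm, hC]
          rfl
    · rintro ⟨w, ⟨h0, h1, h2⟩ | ⟨s, hs, hh⟩⟩
      · have ht : Tru P t := by
          intro s y hy hs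
          have h3 := h2 y hy
          rw [length_pre] at h1
          rw [pre_getD _ _ _ _ (lt_of_lt_of_le hy h1)] at h3
          rcases h3 with h3 | h3
          · exact h3
          · exact absurd ((EE_iff P y).2 ⟨s, hs⟩) h3
        have h1 := not_CC_of_true (P := P) (f := run P) (j := j) ht
        rw [← CB_iff, Bool.not_eq_true] at h1
        rw [h0, h1]
        rfl
      · rcases hh with ⟨h1, h2⟩ | ⟨h1, h2⟩
        · rw [h2, CB_iff.2 ⟨s, h1⟩]
          rfl
        · rw [← CC_iff_of_drop hs, ← CB_iff, Bool.not_eq_true] at h1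
          rw [h2, h1]
          rfl

omit hP in
/-- `m` is the least number appointed for the box `n` outside the `j`-th set -/
def Gam (P : Par) (f : ℕ → ℕ) (j n m : ℕ) : Prop :=
  f m = 2 * n + 1 ∧ CB P f j m = false ∧ ∀ t < m, ¬ (f t = 2 * n + 1 ∧ CB P f j t = false)

omit hP in
theorem Gam_unique {P : Par} {f : ℕ → ℕ} {j : ℕ} (n m m' : ℕ) (h : Gam P f j n m)
    (h' : Gam P f j n m') : m = m' := by
  rcases lt_trichotomy m m' with hlt | heq | hlt
  · exact absurd ⟨h.1, h.2.1⟩ (h'.2.2 _ hlt)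
  · exact heq
  · exact absurd ⟨h'.1, h'.2.1⟩ (h.2.2 _ hlt)

theorem Gam_rec (j : ℕ) : Nat.RecursiveIn {chi (CB P (run P) j)} (ofRel (Gam P (run P) j)) := by
  refine recIn_of_graph (G := fun z : List Bool × ℕ × ℕ =>
    z.2.2 < z.1.length ∧ run P z.2.2 = 2 * z.2.1 + 1 ∧ z.1.getD z.2.2 false = false ∧
      ∀ t < z.2.2, ¬ (run P t = 2 * z.2.1 + 1 ∧ z.1.getD t false = false)) ?_ ?_
  · refine S1.of_prim ?_
    have n : Primrec fun z : List Bool × ℕ × ℕ => z.2.1 := Primrec.fst.comp Primrec.snd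
    have m : Primrec fun z : List Bool × ℕ × ℕ => z.2.2 := Primrec.snd.comp Primrec.snd
    have hg : Primrec fun z : List Bool × ℕ => z.1.getD z.2 false := by
      have h := Primrec.option_getD.comp (Primrec.list_getElem?.comp
        (Primrec.fst (α := List Bool) (β := ℕ)) Primrec.snd) (Primrec.const false)
      exact h.of_eq fun z => by simp [List.getD]
    have hr := run_prim hP
    refine PrimrecPred.and (Primrec.nat_lt.comp m (Primrec.list_length.comp Primrec.fst))
      (PrimrecPred.and (Primrec.eq.comp (hr.comp m) (dbl1_prim n)) (PrimrecPred.and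
        (Primrec.eq.comp (hg.comp (Primrec.fst.pair m)) (Primrec.const false)) ?_))
    refine PP.all_lt (p := fun (z : List Bool × ℕ × ℕ) t =>
      ¬ (run P t = 2 * z.2.1 + 1 ∧ z.1.getD t false = false)) ?_ m
    exact PrimrecPred.not (PrimrecPred.and (Primrec.eq.comp (hr.comp Primrec.snd)
      (dbl1_prim (n.comp Primrec.fst))) (Primrec.eq.comp
        (hg.comp ((Primrec.fst.comp Primrec.fst).pair Primrec.snd)) (Primrec.const false)))
  · intro n m
    rw [mem_ofRel Gam_unique]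
    unfold Gam
    constructor
    · rintro ⟨h1, h2, h3⟩
      refine ⟨m + 1, by simp, h1, ?_, fun t ht hcon => h3 t ht ⟨hcon.1, ?_⟩⟩
      · rw [pre_getD _ _ _ _ (Nat.lt_succ_self m)]
        exact h2
      · have h4 := hcon.2
        have ht' : t < m := ht
        rwa [pre_getD _ _ _ _ (by omega)] at h4
    · rintro ⟨w, h0, h1, h2, h3⟩
      simp only [length_pre] at h0 h1 h2 h3
      refine ⟨h1, ?_, fun t ht hcon => h3 t ht ⟨hcon.1, ?_⟩⟩
      · rwa [pre_getD _ _ _ _ h0] at h2
      · rw [pre_getD _ _ _ _ (by omega)]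
        exact hcon.2

/-- the trace of `ψ` is computably enumerable -/
theorem VT_S1 (hu : ∀ k, ∃ x, k < P.hh x) (I : ℕ) (ψ : ℕ →. ℕ) : S1 fun p : ℕ =>
    (I < P.hh p.unpair.1 ∧ p.unpair.2 ∈ VV P (run P) I p.unpair.1) ∨
    (P.hh p.unpair.1 ≤ I ∧ p.unpair.2 ∈ ψ p.unpair.1) := by
  refine S1.or (S1.and (S1.of_prim ?_) ?_) (S1.of_prim (prim_of_finite ?_))
  · exact Primrec.nat_lt.comp (Primrec.const I) (hP.hh.comp (Primrec.fst.comp Primrec.unpair))
  · have h1 : S1 fun p : ℕ => ∃ r, ∃ t < r, run P t = 2 * Nat.pair I p.unpair.1 + 1 ∧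
        run P r = 2 * Nat.pair I p.unpair.1 + 2 ∧ TS P t r ∧ MV P p.unpair.1 t p.unpair.2 := by
      refine S1.ex (S1.of_prim ?_)
      refine PP.ex_lt (p := fun (z : ℕ × ℕ) t => run P t = 2 * Nat.pair I z.1.unpair.1 + 1 ∧
        run P z.2 = 2 * Nat.pair I z.1.unpair.1 + 2 ∧ TS P t z.2 ∧
          MV P z.1.unpair.1 t z.1.unpair.2) ?_ Primrec.snd
      have hr := run_prim hP
      have x : Primrec fun z : (ℕ × ℕ) × ℕ => z.1.1.unpair.1 :=
        Primrec.fst.comp (Primrec.unpair.comp (Primrec.fst.comp Primrec.fst))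
      have v : Primrec fun z : (ℕ × ℕ) × ℕ => z.1.1.unpair.2 :=
        Primrec.snd.comp (Primrec.unpair.comp (Primrec.fst.comp Primrec.fst))
      have b : Primrec fun z : (ℕ × ℕ) × ℕ => Nat.pair I z.1.1.unpair.1 :=
        Primrec₂.natPair.comp (Primrec.const I) x
      exact PrimrecPred.and (Primrec.eq.comp (hr.comp Primrec.snd) (dbl1_prim b))
        (PrimrecPred.and (Primrec.eq.comp (hr.comp (Primrec.snd.comp Primrec.fst)) (dbl2_prim b))
          (PrimrecPred.and (TS_prim hP Primrec.snd (Primrec.snd.comp Primrec.fst))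
            (MV_prim hP x Primrec.snd v)))
    exact h1
  · obtain ⟨X, hX⟩ := hu I
    have hsub : {p : ℕ | P.hh p.unpair.1 ≤ I ∧ p.unpair.2 ∈ ψ p.unpair.1} ⊆
        ⋃ x ∈ Finset.range X, (fun v => Nat.pair x v) '' {v | v ∈ ψ x} := by
      rintro p ⟨h1, h2⟩
      simp only [Finset.mem_range, Set.mem_iUnion, Set.mem_image, Set.mem_ofPred_eq, exists_prop]
      refine ⟨p.unpair.1, ?_, p.unpair.2, h2, Nat.pair_unpair p⟩
      by_contra hcon
      push Not at hcon
      have := P.hh_mono hcon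
      omega
    refine Set.Finite.subset ?_ hsub
    refine Set.Finite.biUnion (Finset.finite_toSet _) fun x _ => Set.Finite.image _ ?_
    refine Set.Subsingleton.finite fun v hv w hw => ?_
    exact Part.mem_unique hv hw

end sets

/-! ### The order -/

section order
variable (hh g : ℕ → ℕ)

/-- `m < K`, or `m ≤ g n` for a box `n` of size at most `K` -/
def mB (m K : ℕ) : Prop := m < K ∨ ∃ n, idb n < hh (xx n) ∧ hh (xx n) ≤ K ∧ m ≤ g n

theorem mB_ex (m : ℕ) : ∃ K, mB hh g m (K + 1) := ⟨m, Or.inl (Nat.lt_succ_self m)⟩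

theorem mB_mono {m K K' : ℕ} (h : K ≤ K') (h1 : mB hh g m K) : mB hh g m K' := by
  rcases h1 with h1 | ⟨n, h1, h2, h3⟩
  · exact Or.inl (by omega)
  · exact Or.inr ⟨n, h1, by omega, h3⟩

theorem mB_anti {m m' K : ℕ} (h : m ≤ m') (h1 : mB hh g m' K) : mB hh g m K := by
  rcases h1 with h1 | ⟨n, h1, h2, h3⟩
  · exact Or.inl (by omega)
  · exact Or.inr ⟨n, h1, h2, by omega⟩

open Classical in
/-- the order -/
noncomputable def hord (m : ℕ) : ℕ := Nat.find (mB_ex hh g m) + 1

theorem hord_pos (m : ℕ) : 1 ≤ hord hh g m := Nat.le_add_left _ _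

theorem hord_le {m K : ℕ} (hK : 1 ≤ K) (h : mB hh g m K) : hord hh g m ≤ K := by
  classical
  unfold hord
  have h1 : mB hh g m (K - 1 + 1) := by rwa [Nat.sub_add_cancel hK]
  have h2 := Nat.find_min' (mB_ex hh g m) h1
  omega

theorem hord_spec (m : ℕ) : mB hh g m (hord hh g m) := by
  classical
  exact Nat.find_spec (mB_ex hh g m)

theorem hord_mono : Monotone (hord hh g) := fun _ _ h =>
  hord_le hh g (hord_pos hh g _) (mB_anti hh g h (hord_spec hh g _))

variable {hh g}

theorem box_bound (hm : Monotone hh) {K X n : ℕ} (hX : K < hh X) (h1 : idb n < hh (xx n))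
    (h2 : hh (xx n) ≤ K) : n < Nat.pair K X := by
  have h3 : xx n < X := by
    by_contra hcon
    push Not at hcon
    have := hm hcon
    omega
  have h4 : idb n < K := by omega
  have h5 := (Nat.pair_lt_pair_left (xx n) h4).trans (Nat.pair_lt_pair_right _ h3)
  rwa [show Nat.pair (idb n) (xx n) = n by simp [idb, xx]] at h5

theorem hord_unb (hm : Monotone hh) (hu : ∀ k, ∃ x, k < hh x) (k : ℕ) :
    ∃ m, k ≤ hord hh g m := by
  obtain ⟨X, hX⟩ := hu k
  refine ⟨((Finset.range (Nat.pair k X)).sup fun n => g n + 1) + k, ?_⟩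
  by_contra hcon
  push Not at hcon
  have h1 := mB_mono hh g hcon.le (hord_spec hh g _)
  rcases h1 with h1 | ⟨n, h1, h2, h3⟩
  · omega
  · have h4 := box_bound hm hX h1 h2
    have h5 : g n + 1 ≤ (Finset.range (Nat.pair k X)).sup fun n => g n + 1 :=
      Finset.le_sup (f := fun n => g n + 1) (Finset.mem_range.2 h4)
    omega

theorem hord_g {n : ℕ} (h : idb n < hh (xx n)) : hord hh g (g n) ≤ hh (xx n) :=
  hord_le hh g (by omega) (Or.inr ⟨n, h, le_rfl, le_rfl⟩)

theorem not_mB (hm : Monotone hh) (hu : ∀ k, ∃ x, k < hh x) (m K : ℕ) :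
    ¬ mB hh g m K ↔ K ≤ m ∧ ∃ X, K < hh X ∧ ∀ n < Nat.pair K X,
      (¬ (idb n < hh (xx n) ∧ hh (xx n) ≤ K) ∨ g n < m) := by
  unfold mB
  push Not
  refine and_congr_right fun _ => ?_
  constructor
  · intro h
    obtain ⟨X, hX⟩ := hu K
    refine ⟨X, hX, fun n _ => ?_⟩
    by_cases hc : idb n < hh (xx n) ∧ hh (xx n) ≤ K
    · exact Or.inr (h n hc.1 hc.2)
    · left
      intro h1
      by_contra hcon
      exact hc ⟨h1, by omega⟩
  · rintro ⟨X, hX, h⟩ n h1 h2
    rcases h n (box_bound hm hX h1 h2) with h3 | h3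
    · have := h3 h1
      omega
    · exact h3

theorem hord_computable (hp : Primrec hh) (hg : Computable g) (hm : Monotone hh)
    (hu : ∀ k, ∃ x, k < hh x) : Computable (hord hh g) := by
  classical
  refine computable_of_S1 ?_
  have h1 : S1 fun z : ℕ × ℕ => mB hh g z.1 z.2 := by
    unfold mB
    refine S1.or (S1.of_prim (Primrec.nat_lt.comp Primrec.fst Primrec.snd)) (S1.ex ?_)
    have e := idb_prim (Primrec.snd (α := ℕ × ℕ) (β := ℕ))
    have x := xx_prim (Primrec.snd (α := ℕ × ℕ) (β := ℕ))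
    exact S1.and (S1.of_prim (Primrec.nat_lt.comp e (hp.comp x))) (S1.and
      (S1.of_prim (Primrec.nat_le.comp (hp.comp x) (Primrec.snd.comp Primrec.fst)))
      (S1_le_comp hg (Primrec.fst.comp Primrec.fst) Primrec.snd))
  have h2 : S1 fun z : ℕ × ℕ => ¬ mB hh g z.1 z.2 := by
    have h3 : S1 fun z : ℕ × ℕ => z.2 ≤ z.1 ∧ ∃ X, z.2 < hh X ∧ ∀ n < Nat.pair z.2 X,
        (¬ (idb n < hh (xx n) ∧ hh (xx n) ≤ z.2) ∨ g n < z.1) := by
      refine S1.and (S1.of_prim (Primrec.nat_le.comp Primrec.snd Primrec.fst)) (S1.ex ?_)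
      refine S1.and (S1.of_prim (Primrec.nat_lt.comp (Primrec.snd.comp Primrec.fst)
        (hp.comp Primrec.snd))) ?_
      refine S1.all_lt (p := fun (z : (ℕ × ℕ) × ℕ) n =>
        ¬ (idb n < hh (xx n) ∧ hh (xx n) ≤ z.1.2) ∨ g n < z.1.1) ?_
        (Primrec₂.natPair.comp (Primrec.snd.comp Primrec.fst) Primrec.snd)
      have e := idb_prim (Primrec.snd (α := (ℕ × ℕ) × ℕ) (β := ℕ))
      have x := xx_prim (Primrec.snd (α := (ℕ × ℕ) × ℕ) (β := ℕ))
      exact S1.or (S1.of_prim (PrimrecPred.not (PrimrecPred.and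
        (Primrec.nat_lt.comp e (hp.comp x)) (Primrec.nat_le.comp (hp.comp x)
          (Primrec.snd.comp (Primrec.fst.comp Primrec.fst))))))
        (S1_gt_comp hg (Primrec.fst.comp (Primrec.fst.comp Primrec.fst)) Primrec.snd)
    exact h3.of_eq fun z => (not_mB hm hu z.1 z.2).symm
  have h3 : S1 fun z : ℕ × ℕ => ∃ K, z.2 = K + 1 ∧ mB hh g z.1 (K + 1) ∧
      ∀ K' < K, ¬ mB hh g z.1 (K' + 1) := by
    refine S1.ex (S1.and (S1.of_prim ?_) (S1.and ?_ ?_))
    · exact Primrec.eq.comp (Primrec.snd.comp Primrec.fst) (Primrec.succ.comp Primrec.snd)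
    · exact h1.comp ((Primrec.fst.comp Primrec.fst).pair (Primrec.succ.comp Primrec.snd))
    · refine S1.all_lt (p := fun (z : (ℕ × ℕ) × ℕ) K' => ¬ mB hh g z.1.1 (K' + 1)) ?_ Primrec.snd
      exact h2.comp ((Primrec.fst.comp (Primrec.fst.comp Primrec.fst)).pair
        (Primrec.succ.comp Primrec.snd))
  refine h3.of_eq fun z => ?_
  unfold hord
  constructor
  · rintro ⟨K, hK, h4, h5⟩
    rw [hK, (Nat.find_eq_iff (mB_ex hh g z.1)).2 ⟨h4, h5⟩]
  · intro h4
    exact ⟨_, h4.symm, Nat.find_spec (mB_ex hh g z.1),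
      fun K' hK' => Nat.find_min (mB_ex hh g z.1) hK'⟩

end order

end Pool.Agent.H651.SJ
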