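import Pool.Agent.H651.SJ.Sat

set_option autoImplicit false

namespace Pool.Agent.H651.SJ

open Nat.Partrec (Code)
open Pool.Agent.Helper227 (pre PP.ex_lt PP.all_lt)

/-! ### The construction depends only on the history -/

section congr
variable {P : Par} {f g : ℕ → ℕ} {s : ℕ}

theorem isTop_congr (h : ∀ t < s, f t = g t) {k p : ℕ} : isTop P f s k p ↔ isTop P g s k p := by
  unfold isTop AppLt
  exact and_congr (or_congr Iff.rfl (and_congr_right fun hp => by rw [h p hp]))
    (forall₂_congr fun t ht => by rw [h t ht])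

theorem isC_congr (h : ∀ t < s, f t = g t) {k c : ℕ} : isC P f s k c ↔ isC P g s k c := by
  unfold isC ConfLt
  exact and_congr (or_congr Iff.rfl (and_congr_right fun hp => by rw [h c hp]))
    (forall₂_congr fun t ht => by rw [h t ht])

theorem Inst_congr (h : ∀ t < s, f t = g t) {n : ℕ} : Inst P f s n ↔ Inst P g s n :=
  and_congr (isTop_congr h) (isC_congr h)

theorem unapp_congr (h : ∀ t < s, f t = g t) {n : ℕ} : unapp P f s n ↔ unapp P g s n :=
  forall₂_congr fun t ht => by rw [h t ht]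

theorem pass_congr (h : ∀ t < s, f t = g t) {n : ℕ} : pass P f s n ↔ pass P g s n := by
  unfold pass
  refine or_congr Iff.rfl (or_congr (and_congr Iff.rfl (unapp_congr h))
    (exists_congr fun t => and_congr_right fun ht => ?_))
  rw [h t ht]
  exact and_congr Iff.rfl (and_congr Iff.rfl
    (exists_congr fun r => and_congr_right fun hr => by rw [h r hr]))

theorem base_congr (h : ∀ t < s, f t = g t) {n : ℕ} : base P f s n ↔ base P g s n :=
  and_congr Iff.rfl (and_congr Iff.rfl (and_congr (Inst_congr h) (and_congr Iff.rfl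
    (forall₂_congr fun _ _ => pass_congr h))))

theorem legA_congr (h : ∀ t < s, f t = g t) {n : ℕ} : legA P f s n ↔ legA P g s n :=
  and_congr (base_congr h) (and_congr Iff.rfl (unapp_congr h))

theorem Cs_congr (h : ∀ t < s, f t = g t) {j y : ℕ} : Cs P f s j y ↔ Cs P g s j y := by
  unfold Cs
  refine and_congr_right fun hy => ?_
  rw [h y hy]
  exact and_congr Iff.rfl (and_congr Iff.rfl (and_congr Iff.rfl
    (forall₂_congr fun r hr => by rw [h r hr])))

theorem Cb_congr (h : ∀ t < s, f t = g t) {j : ℕ} : Cb P f s j = Cb P g s j := by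
  funext y
  rw [Bool.eq_iff_iff, Cb_iff, Cb_iff]
  exact Cs_congr h

theorem Tr_congr (h : ∀ t < s, f t = g t) {n t : ℕ} : Tr P f s n t ↔ Tr P g s n t := by
  unfold Tr
  rw [Cb_congr h]

theorem cnt_congr (h : ∀ t < s, f t = g t) {n : ℕ} : cnt f n s = cnt g n s := by
  induction s with
  | zero => rfl
  | succ s ih =>
    rw [cnt, cnt, h s (Nat.lt_succ_self s), ih fun t ht => h t (by omega)]

theorem legC_congr (h : ∀ t < s, f t = g t) {n : ℕ} : legC P f s n ↔ legC P g s n := by
  unfold legC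
  rw [cnt_congr h]
  refine and_congr (base_congr h) (and_congr (exists_congr fun t => and_congr_right fun ht => ?_)
    Iff.rfl)
  rw [h t ht]
  exact and_congr Iff.rfl (and_congr Iff.rfl (and_congr
    (forall₂_congr fun r hr => by rw [h r hr]) (Tr_congr h)))

theorem leg_congr (h : ∀ t < s, f t = g t) {a : ℕ} : leg P f s a ↔ leg P g s a :=
  or_congr (and_congr Iff.rfl (legA_congr h)) (and_congr Iff.rfl (and_congr Iff.rfl
    (legC_congr h)))

end congr

/-! ### Bounding the actions -/

/-- a bound for the actions wanted at stage `s` -/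
def Bd (s : ℕ) : ℕ := 2 * Nat.pair (Nat.pair s (Nat.pair (s + 1) (s + 1))) s + 3

theorem box_lt {P : Par} {f : ℕ → ℕ} {s n : ℕ} (h : base P f s n) :
    n < Nat.pair (Nat.pair s (Nat.pair (s + 1) (s + 1))) s := by
  obtain ⟨h1, h2, h3, -⟩ := h
  have hp : pp n < s + 1 := by
    rcases h3.1.1 with h0 | ⟨h4, -⟩ <;> omega
  have hc : cc n < s + 1 := by
    rcases h3.2.1 with h0 | ⟨h4, -⟩ <;> omega
  have h4 : Nat.pair (pp n) (cc n) < Nat.pair (s + 1) (s + 1) :=
    (Nat.pair_lt_pair_left _ hp).trans (Nat.pair_lt_pair_right _ hc)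
  have h5 : Nat.pair (kk n) (Nat.pair (pp n) (cc n)) < Nat.pair s (Nat.pair (s + 1) (s + 1)) :=
    (Nat.pair_lt_pair_left _ h1).trans (Nat.pair_lt_pair_right _ h4)
  have h6 := (Nat.pair_lt_pair_left (xx n) h5).trans (Nat.pair_lt_pair_right _ h2)
  rwa [show Nat.pair (Nat.pair (kk n) (Nat.pair (pp n) (cc n))) (xx n) = n by
    simp [kk, pp, cc, xx]] at h6

theorem leg_lt {P : Par} {f : ℕ → ℕ} {s a : ℕ} (h : leg P f s a) : a < Bd s := by
  unfold Bd
  rcases h with ⟨h1, h2⟩ | ⟨h0, h1, h2⟩
  · have := box_lt h2.1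
    omega
  · have := box_lt h2.1
    omega

/-! ### Primitive recursiveness -/

/-- the history given by a list -/
def gf (L : List ℕ) (t : ℕ) : ℕ := L.getD t 0

/-- primitive recursive parameters -/
structure Par.Prim (P : Par) : Prop where
  En : Primrec₂ P.En
  q : PrimrecRel P.q
  hh : Primrec P.hh

section prim
variable {P : Par} (hP : P.Prim) {α : Type*} [Primcodable α]
include hP

theorem ell_prim {s : α → ℕ} (hs : Primrec s) : Primrec fun a => ell P (s a) := by
  unfold ell
  refine Primrec.list_findIdx (p := fun a y => P.En (s a) y && !P.En (s a - 1) y)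
    (Primrec.list_range.comp hs) ?_
  have h1 : Primrec fun z : α × ℕ => P.En (s z.1) z.2 := hP.En.comp (hs.comp Primrec.fst) Primrec.snd
  have h2 : Primrec fun z : α × ℕ => P.En (s z.1 - 1) z.2 :=
    hP.En.comp (Primrec.nat_sub.comp (hs.comp Primrec.fst) (Primrec.const 1)) Primrec.snd
  exact Primrec.and.comp h1 (Primrec.not.comp h2)

theorem TS_prim {t s : α → ℕ} (ht : Primrec t) (hs : Primrec s) :
    PrimrecPred fun a => TS P (t a) (s a) := by
  unfold TS
  refine PP.all_lt (p := fun a y => P.En (s a) y = true → P.En (t a) y = true) ?_ (ell_prim hP ht)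
  have h1 : PrimrecPred fun z : α × ℕ => ¬ P.En (s z.1) z.2 = true ∨ P.En (t z.1) z.2 = true := by
    refine PrimrecPred.or (PrimrecPred.not (Primrec.eq.comp ?_ (Primrec.const true)))
      (Primrec.eq.comp ?_ (Primrec.const true))
    · exact hP.En.comp (hs.comp Primrec.fst) Primrec.snd
    · exact hP.En.comp (ht.comp Primrec.fst) Primrec.snd
  exact h1.of_eq fun z => by tauto

theorem cert_prim {x s c : α → ℕ} (hx : Primrec x) (hs : Primrec s) (hc : Primrec c) :
    PrimrecPred fun a => cert P (x a) (s a) (c a) := by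
  unfold cert
  have c1 : Primrec fun a => (c a).unpair.1 := Primrec.fst.comp (Primrec.unpair.comp hc)
  have c2 : Primrec fun a => (c a).unpair.2.unpair.1 :=
    Primrec.fst.comp (Primrec.unpair.comp (Primrec.snd.comp (Primrec.unpair.comp hc)))
  have c3 : Primrec fun a => (c a).unpair.2.unpair.2 :=
    Primrec.snd.comp (Primrec.unpair.comp (Primrec.snd.comp (Primrec.unpair.comp hc)))
  have h1 : Primrec fun a => pre (P.En (s a)) (c a).unpair.1 := by
    unfold pre
    refine Primrec.list_map (Primrec.list_range.comp c1) ?_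
    exact hP.En.comp (hs.comp Primrec.fst) Primrec.snd
  exact PrimrecPred.and (Primrec.nat_le.comp c1 (ell_prim hP hs))
    (hP.q.comp (h1.pair (hx.pair c2)) c3)

theorem cmp_prim {x s : α → ℕ} (hx : Primrec x) (hs : Primrec s) :
    PrimrecPred fun a => cmp P (x a) (s a) := by
  unfold cmp
  refine PP.ex_lt (p := fun a c => cert P (x a) (s a) c) ?_ hs
  exact cert_prim hP (hx.comp Primrec.fst) (hs.comp Primrec.fst) Primrec.snd

theorem MV_prim {x s m : α → ℕ} (hx : Primrec x) (hs : Primrec s) (hm : Primrec m) :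
    PrimrecPred fun a => MV P (x a) (s a) (m a) := by
  unfold MV
  refine PP.ex_lt (p := fun a c => cert P (x a) (s a) c ∧ (∀ c' < c, ¬ cert P (x a) (s a) c') ∧
    m a = c.unpair.2.unpair.1) ?_ hs
  refine PrimrecPred.and (cert_prim hP (hx.comp Primrec.fst) (hs.comp Primrec.fst) Primrec.snd)
    (PrimrecPred.and ?_ ?_)
  · refine PP.all_lt (p := fun (z : α × ℕ) c' => ¬ cert P (x z.1) (s z.1) c') ?_ Primrec.snd
    exact PrimrecPred.not (cert_prim hP (hx.comp (Primrec.fst.comp Primrec.fst))
      (hs.comp (Primrec.fst.comp Primrec.fst)) Primrec.snd)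
  · exact Primrec.eq.comp (hm.comp Primrec.fst) (Primrec.fst.comp (Primrec.unpair.comp
      (Primrec.snd.comp (Primrec.unpair.comp Primrec.snd))))

omit hP in
theorem kk_prim {n : α → ℕ} (hn : Primrec n) : Primrec fun a => kk (n a) :=
  Primrec.fst.comp (Primrec.unpair.comp (Primrec.fst.comp (Primrec.unpair.comp hn)))

omit hP in
theorem pp_prim {n : α → ℕ} (hn : Primrec n) : Primrec fun a => pp (n a) :=
  Primrec.fst.comp (Primrec.unpair.comp (Primrec.snd.comp (Primrec.unpair.comp
    (Primrec.fst.comp (Primrec.unpair.comp hn)))))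

omit hP in
theorem cc_prim {n : α → ℕ} (hn : Primrec n) : Primrec fun a => cc (n a) :=
  Primrec.snd.comp (Primrec.unpair.comp (Primrec.snd.comp (Primrec.unpair.comp
    (Primrec.fst.comp (Primrec.unpair.comp hn)))))

omit hP in
theorem xx_prim {n : α → ℕ} (hn : Primrec n) : Primrec fun a => xx (n a) :=
  Primrec.snd.comp (Primrec.unpair.comp hn)

omit hP in
theorem idb_prim {n : α → ℕ} (hn : Primrec n) : Primrec fun a => idb (n a) :=
  Primrec.fst.comp (Primrec.unpair.comp hn)

omit hP in
theorem gf_prim {L : α → List ℕ} {t : α → ℕ} (hL : Primrec L) (ht : Primrec t) :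
    Primrec fun a => gf (L a) (t a) := by
  unfold gf
  have h := Primrec.option_getD.comp (Primrec.list_getElem?.comp hL ht) (Primrec.const 0)
  exact h.of_eq fun a => by simp [List.getD]

omit hP in
theorem half_prim {n : α → ℕ} (hn : Primrec n) : Primrec fun a => n a / 2 :=
  Primrec.nat_div.comp hn (Primrec.const 2)

omit hP in
theorem half1_prim {n : α → ℕ} (hn : Primrec n) : Primrec fun a => n a / 2 - 1 :=
  Primrec.nat_sub.comp (half_prim hn) (Primrec.const 1)

omit hP in
theorem mod_prim {n m : α → ℕ} (hn : Primrec n) (hm : Primrec m) :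
    PrimrecPred fun a => n a % 2 = m a :=
  Primrec.eq.comp (Primrec.nat_mod.comp hn (Primrec.const 2)) hm

omit hP in
theorem dbl1_prim {n : α → ℕ} (hn : Primrec n) : Primrec fun a => 2 * n a + 1 :=
  Primrec.succ.comp (Primrec.nat_mul.comp (Primrec.const 2) hn)

omit hP in
theorem dbl2_prim {n : α → ℕ} (hn : Primrec n) : Primrec fun a => 2 * n a + 2 :=
  Primrec.succ.comp (dbl1_prim hn)

omit hP in
theorem imp_prim {p r : α → Prop} (hp : PrimrecPred p) (hr : PrimrecPred r) :
    PrimrecPred fun a => p a → r a :=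
  (PrimrecPred.or (PrimrecPred.not hp) hr).of_eq fun a => by tauto

omit hP in
theorem AppLt_prim {L : α → List ℕ} {k t : α → ℕ} (hL : Primrec L) (hk : Primrec k)
    (ht : Primrec t) : PrimrecPred fun a => AppLt (gf (L a)) (k a) (t a) := by
  unfold AppLt
  exact PrimrecPred.and (mod_prim (gf_prim hL ht) (Primrec.const 1))
    (Primrec.nat_lt.comp (kk_prim (half_prim (gf_prim hL ht))) hk)

theorem ConfLt_prim {L : α → List ℕ} {k t s : α → ℕ} (hL : Primrec L) (hk : Primrec k)
    (ht : Primrec t) (hs : Primrec s) :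
    PrimrecPred fun a => ConfLt P (gf (L a)) (k a) (t a) (s a) := by
  unfold ConfLt
  have g := gf_prim hL ht
  exact PrimrecPred.and (PrimrecPred.not (Primrec.eq.comp g (Primrec.const 0)))
    (PrimrecPred.and (mod_prim g (Primrec.const 0)) (PrimrecPred.and
      (Primrec.nat_lt.comp (kk_prim (half1_prim g)) hk) (TS_prim hP (pp_prim (half1_prim g)) hs)))

theorem isTop_prim {L : α → List ℕ} {s k p : α → ℕ} (hL : Primrec L) (hs : Primrec s)
    (hk : Primrec k) (hp : Primrec p) :
    PrimrecPred fun a => isTop P (gf (L a)) (s a) (k a) (p a) := by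
  unfold isTop
  refine PrimrecPred.and (PrimrecPred.or (Primrec.eq.comp hp (Primrec.const 0))
    (PrimrecPred.and (Primrec.nat_lt.comp hp hs) (PrimrecPred.and (AppLt_prim hL hk hp)
      (TS_prim hP hp hs)))) ?_
  refine PP.all_lt (p := fun a t => p a < t → ¬ (AppLt (gf (L a)) (k a) t ∧ TS P t (s a))) ?_ hs
  refine imp_prim (Primrec.nat_lt.comp (hp.comp Primrec.fst) Primrec.snd)
    (PrimrecPred.not (PrimrecPred.and ?_ ?_))
  · exact AppLt_prim (hL.comp Primrec.fst) (hk.comp Primrec.fst) Primrec.snd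
  · exact TS_prim hP Primrec.snd (hs.comp Primrec.fst)

theorem isC_prim {L : α → List ℕ} {s k c : α → ℕ} (hL : Primrec L) (hs : Primrec s)
    (hk : Primrec k) (hc : Primrec c) :
    PrimrecPred fun a => isC P (gf (L a)) (s a) (k a) (c a) := by
  unfold isC
  refine PrimrecPred.and (PrimrecPred.or (Primrec.eq.comp hc (Primrec.const 0))
    (PrimrecPred.and (Primrec.nat_lt.comp hc hs) (ConfLt_prim hP hL hk hc hs))) ?_
  refine PP.all_lt (p := fun a t => c a < t → ¬ ConfLt P (gf (L a)) (k a) t (s a)) ?_ hs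
  refine imp_prim (Primrec.nat_lt.comp (hc.comp Primrec.fst) Primrec.snd) (PrimrecPred.not ?_)
  exact ConfLt_prim hP (hL.comp Primrec.fst) (hk.comp Primrec.fst) Primrec.snd (hs.comp Primrec.fst)

theorem Inst_prim {L : α → List ℕ} {s n : α → ℕ} (hL : Primrec L) (hs : Primrec s)
    (hn : Primrec n) : PrimrecPred fun a => Inst P (gf (L a)) (s a) (n a) :=
  PrimrecPred.and (isTop_prim hP hL hs (kk_prim hn) (pp_prim hn))
    (isC_prim hP hL hs (kk_prim hn) (cc_prim hn))

theorem unapp_prim {L : α → List ℕ} {s n : α → ℕ} (hL : Primrec L) (hs : Primrec s)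
    (hn : Primrec n) : PrimrecPred fun a => unapp P (gf (L a)) (s a) (n a) := by
  unfold unapp
  refine PP.all_lt (p := fun a t => gf (L a) t = 2 * n a + 1 → ¬ TS P t (s a)) ?_ hs
  refine imp_prim (Primrec.eq.comp (gf_prim (hL.comp Primrec.fst) Primrec.snd)
    (dbl1_prim (hn.comp Primrec.fst))) (PrimrecPred.not ?_)
  exact TS_prim hP Primrec.snd (hs.comp Primrec.fst)

theorem pass_prim {L : α → List ℕ} {s n : α → ℕ} (hL : Primrec L) (hs : Primrec s)
    (hn : Primrec n) : PrimrecPred fun a => pass P (gf (L a)) (s a) (n a) := by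
  unfold pass
  refine PrimrecPred.or (Primrec.nat_le.comp (hP.hh.comp (xx_prim hn)) (idb_prim hn))
    (PrimrecPred.or (PrimrecPred.and (PrimrecPred.not (cmp_prim hP (xx_prim hn) hs))
      (unapp_prim hP hL hs hn)) ?_)
  refine PP.ex_lt (p := fun a t => gf (L a) t = 2 * n a + 1 ∧ TS P t (s a) ∧
    ∃ r < s a, t < r ∧ gf (L a) r = 2 * n a + 2) ?_ hs
  refine PrimrecPred.and (Primrec.eq.comp (gf_prim (hL.comp Primrec.fst) Primrec.snd)
    (dbl1_prim (hn.comp Primrec.fst))) (PrimrecPred.and
      (TS_prim hP Primrec.snd (hs.comp Primrec.fst)) ?_)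
  refine PP.ex_lt (p := fun (z : α × ℕ) r => z.2 < r ∧ gf (L z.1) r = 2 * n z.1 + 2) ?_
    (hs.comp Primrec.fst)
  exact PrimrecPred.and (Primrec.nat_lt.comp (Primrec.snd.comp Primrec.fst) Primrec.snd)
    (Primrec.eq.comp (gf_prim (hL.comp (Primrec.fst.comp Primrec.fst)) Primrec.snd)
      (dbl2_prim (hn.comp (Primrec.fst.comp Primrec.fst))))

theorem base_prim {L : α → List ℕ} {s n : α → ℕ} (hL : Primrec L) (hs : Primrec s)
    (hn : Primrec n) : PrimrecPred fun a => base P (gf (L a)) (s a) (n a) := by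
  unfold base
  refine PrimrecPred.and (Primrec.nat_lt.comp (kk_prim hn) hs) (PrimrecPred.and
    (Primrec.nat_lt.comp (xx_prim hn) hs) (PrimrecPred.and (Inst_prim hP hL hs hn)
      (PrimrecPred.and (Primrec.nat_lt.comp (idb_prim hn) (hP.hh.comp (xx_prim hn))) ?_)))
  refine PP.all_lt (p := fun a x' => pass P (gf (L a)) (s a) (Nat.pair (idb (n a)) x')) ?_
    (xx_prim hn)
  exact pass_prim hP (hL.comp Primrec.fst) (hs.comp Primrec.fst)
    (Primrec₂.natPair.comp (idb_prim (hn.comp Primrec.fst)) Primrec.snd)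

theorem legA_prim {L : α → List ℕ} {s n : α → ℕ} (hL : Primrec L) (hs : Primrec s)
    (hn : Primrec n) : PrimrecPred fun a => legA P (gf (L a)) (s a) (n a) :=
  PrimrecPred.and (base_prim hP hL hs hn) (PrimrecPred.and (cmp_prim hP (xx_prim hn) hs)
    (unapp_prim hP hL hs hn))

theorem Cs_prim {L : α → List ℕ} {s j y : α → ℕ} (hL : Primrec L) (hs : Primrec s)
    (hj : Primrec j) (hy : Primrec y) :
    PrimrecPred fun a => Cs P (gf (L a)) (s a) (j a) (y a) := by
  unfold Cs
  have g := gf_prim hL hy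
  refine PrimrecPred.and (Primrec.nat_lt.comp hy hs) (PrimrecPred.and
    (mod_prim g (Primrec.const 1)) (PrimrecPred.and (mod_prim (kk_prim (half_prim g)) hj)
      (PrimrecPred.and (PrimrecPred.not (TS_prim hP hy hs)) ?_)))
  refine PP.all_lt (p := fun a r => ¬ (y a < r ∧ TS P (y a) r ∧ gf (L a) r ≠ 0 ∧
    gf (L a) r % 2 = 0 ∧ kk (gf (L a) r / 2 - 1) < kk (gf (L a) (y a) / 2) ∧
      pp (gf (L a) r / 2 - 1) < y a)) ?_ hs
  have g' : Primrec fun z : α × ℕ => gf (L z.1) z.2 := gf_prim (hL.comp Primrec.fst) Primrec.snd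
  refine PrimrecPred.not (PrimrecPred.and (Primrec.nat_lt.comp (hy.comp Primrec.fst) Primrec.snd)
    (PrimrecPred.and (TS_prim hP (hy.comp Primrec.fst) Primrec.snd) (PrimrecPred.and
      (PrimrecPred.not (Primrec.eq.comp g' (Primrec.const 0))) (PrimrecPred.and
        (mod_prim g' (Primrec.const 0)) (PrimrecPred.and (Primrec.nat_lt.comp
          (kk_prim (half1_prim g')) (kk_prim (half_prim (g.comp Primrec.fst))))
          (Primrec.nat_lt.comp (pp_prim (half1_prim g')) (hy.comp Primrec.fst)))))))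

theorem preC_prim {L : α → List ℕ} {s j b : α → ℕ} (hL : Primrec L) (hs : Primrec s)
    (hj : Primrec j) (hb : Primrec b) :
    Primrec fun a => pre (Cb P (gf (L a)) (s a) (j a)) (b a) := by
  classical
  unfold pre
  refine Primrec.list_map (Primrec.list_range.comp hb) ?_
  have h := Cs_prim hP (hL.comp (Primrec.fst (α := α) (β := ℕ))) (hs.comp Primrec.fst)
    (hj.comp Primrec.fst) Primrec.snd
  refine h.decide.of_eq fun z => ?_
  unfold Cb
  congr

omit hP in
theorem W_prim {s e y : α → ℕ} (hs : Primrec s) (he : Primrec e) (hy : Primrec y) :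
    Primrec fun a => W (s a) (e a) (y a) := by
  have h1 : Primrec fun a =>
      Code.evaln (s a) (Denumerable.ofNat Code (e a)) (y a) :=
    Code.primrec_evaln.comp ((hs.pair ((Primrec.ofNat Code).comp he)).pair hy)
  exact Primrec.option_isSome.comp h1

theorem Tr_prim {L : α → List ℕ} {s n t : α → ℕ} (hL : Primrec L) (hs : Primrec s)
    (hn : Primrec n) (ht : Primrec t) :
    PrimrecPred fun a => Tr P (gf (L a)) (s a) (n a) (t a) := by
  unfold Tr
  refine PP.ex_lt (p := fun a b => W (s a) (kk (n a) / 2) (Encodable.encode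
    (pre (Cb P (gf (L a)) (s a) (1 - kk (n a) % 2)) b, n a, t a)) = true) ?_
    (Primrec.succ.comp hs)
  refine Primrec.eq.comp (W_prim (hs.comp Primrec.fst) (half_prim (kk_prim (hn.comp Primrec.fst)))
    (Primrec.encode.comp (Primrec.pair ?_ ((hn.comp Primrec.fst).pair (ht.comp Primrec.fst)))))
    (Primrec.const true)
  exact preC_prim hP (hL.comp Primrec.fst) (hs.comp Primrec.fst)
    (Primrec.nat_sub.comp (Primrec.const 1) (Primrec.nat_mod.comp (kk_prim (hn.comp Primrec.fst))
      (Primrec.const 2))) Primrec.snd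

omit hP in
theorem cnt_prim {L : α → List ℕ} {s n : α → ℕ} (hL : Primrec L) (hs : Primrec s)
    (hn : Primrec n) : Primrec fun a => cnt (gf (L a)) (n a) (s a) := by
  have h1 : Primrec₂ fun (a : α) (z : ℕ × ℕ) =>
      if gf (L a) z.1 = 2 * n a + 2 then z.2 + 1 else z.2 := by
    refine Primrec.ite (Primrec.eq.comp (gf_prim (hL.comp Primrec.fst)
      (Primrec.fst.comp Primrec.snd)) (dbl2_prim (hn.comp Primrec.fst)))
      (Primrec.succ.comp (Primrec.snd.comp Primrec.snd)) (Primrec.snd.comp Primrec.snd)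
  have h2 := Primrec.nat_rec' hs (Primrec.const 0) h1
  refine h2.of_eq fun a => ?_
  generalize s a = m
  induction m with
  | zero => rfl
  | succ m ih => rw [cnt, ← ih]

theorem legC_prim {L : α → List ℕ} {s n : α → ℕ} (hL : Primrec L) (hs : Primrec s)
    (hn : Primrec n) : PrimrecPred fun a => legC P (gf (L a)) (s a) (n a) := by
  unfold legC
  refine PrimrecPred.and (base_prim hP hL hs hn) (PrimrecPred.and ?_
    (Primrec.nat_lt.comp (cnt_prim hL hs hn) (hP.hh.comp (xx_prim hn))))
  refine PP.ex_lt (p := fun a t => gf (L a) t = 2 * n a + 1 ∧ TS P t (s a) ∧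
    (∀ r < s a, t < r → gf (L a) r ≠ 2 * n a + 2) ∧ Tr P (gf (L a)) (s a) (n a) t) ?_ hs
  refine PrimrecPred.and (Primrec.eq.comp (gf_prim (hL.comp Primrec.fst) Primrec.snd)
    (dbl1_prim (hn.comp Primrec.fst))) (PrimrecPred.and
      (TS_prim hP Primrec.snd (hs.comp Primrec.fst)) (PrimrecPred.and ?_
        (Tr_prim hP (hL.comp Primrec.fst) (hs.comp Primrec.fst) (hn.comp Primrec.fst)
          Primrec.snd)))
  refine PP.all_lt (p := fun (z : α × ℕ) r => z.2 < r → gf (L z.1) r ≠ 2 * n z.1 + 2) ?_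
    (hs.comp Primrec.fst)
  exact imp_prim (Primrec.nat_lt.comp (Primrec.snd.comp Primrec.fst) Primrec.snd)
    (PrimrecPred.not (Primrec.eq.comp (gf_prim (hL.comp (Primrec.fst.comp Primrec.fst))
      Primrec.snd) (dbl2_prim (hn.comp (Primrec.fst.comp Primrec.fst)))))

theorem leg_prim {L : α → List ℕ} {s b : α → ℕ} (hL : Primrec L) (hs : Primrec s)
    (hb : Primrec b) : PrimrecPred fun a => leg P (gf (L a)) (s a) (b a) := by
  unfold leg
  exact PrimrecPred.or (PrimrecPred.and (mod_prim hb (Primrec.const 1))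
    (legA_prim hP hL hs (half_prim hb))) (PrimrecPred.and
      (PrimrecPred.not (Primrec.eq.comp hb (Primrec.const 0))) (PrimrecPred.and
        (mod_prim hb (Primrec.const 0)) (legC_prim hP hL hs (half1_prim hb))))

omit hP in
theorem kA_prim {b : α → ℕ} (hb : Primrec b) : Primrec fun a => kA (b a) :=
  Primrec.ite (mod_prim hb (Primrec.const 1)) (kk_prim (half_prim hb)) (kk_prim (half1_prim hb))

end prim


end Pool.Agent.H651.SJ
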