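import Pool.Agent.H651.SJ.Stage

set_option autoImplicit false

namespace Pool.Agent.H651.SJ

open Nat.Partrec (Code)
open Pool.Agent.Helper227 (pre)

variable {P : Par} {f : ℕ → ℕ}

/-! ### Basic facts on runs -/

theorem legA_of (hf : IsRun P f) {t n : ℕ} (h : f t = 2 * n + 1) : legA P f t n := by
  have h1 := ((hf t).1 (by omega)).1
  rcases h1 with ⟨-, h2⟩ | ⟨-, h2, -⟩
  · rw [h] at h2
    rwa [show (2 * n + 1) / 2 = n by omega] at h2
  · omega

theorem legC_of (hf : IsRun P f) {t n : ℕ} (h : f t = 2 * n + 2) : legC P f t n := by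
  have h1 := ((hf t).1 (by omega)).1
  rcases h1 with ⟨h2, -⟩ | ⟨-, -, h2⟩
  · omega
  · rw [h] at h2
    rwa [show (2 * n + 2) / 2 - 1 = n by omega] at h2

theorem run_zero (hf : IsRun P f) : f 0 = 0 := by
  by_contra hcon
  rcases ((hf 0).1 hcon).1 with ⟨-, h2⟩ | ⟨-, -, h2⟩
  · have := h2.1.1
    omega
  · have := h2.1.1
    omega

/-- numbers appointed for the same box: at most one of them is believed -/
theorem app_unique (hf : IsRun P f) {n t₁ t₂ s : ℕ} (h1 : f t₁ = 2 * n + 1) (h2 : f t₂ = 2 * n + 1)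
    (hs₁ : t₁ ≤ s) (hs₂ : t₂ ≤ s) (h3 : TS P t₁ s) (h4 : TS P t₂ s) : t₁ = t₂ := by
  rcases lt_trichotomy t₁ t₂ with hlt | heq | hlt
  · exact absurd (TS_anti P hs₂ h3) ((legA_of hf h2).2.2 t₁ hlt h1)
  · exact heq
  · exact absurd (TS_anti P hs₁ h4) ((legA_of hf h1).2.2 t₂ hlt h2)

theorem pass_anti_block (hf : IsRun P f) {n t s : ℕ} (h : f t = 2 * n + 1) (hts : t < s)
    (hT : TS P t s) (hid : idb n < P.hh (xx n)) (hr : ∀ r < s, t < r → f r ≠ 2 * n + 2) :
    ¬ pass P f s n := by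
  rintro (h1 | ⟨-, h1⟩ | ⟨t', h1, h2, h3, r, h4, h5, h6⟩)
  · omega
  · exact h1 t hts h hT
  · have : t' = t := app_unique hf h2 h h1.le hts.le h3 hT
    subst this
    exact hr r h4 h5 h6

/-! ### Monotonicity of the sets -/

theorem Cs_mono {j y s s' : ℕ} (h : s ≤ s') (hy : Cs P f s j y) : Cs P f s' j y := by
  obtain ⟨h1, h2, h3, h4, h5⟩ := hy
  refine ⟨by omega, h2, h3, fun h6 => h4 (TS_anti P h h6), fun r hr hcon => ?_⟩
  by_cases hrs : r < s
  · exact h5 r hrs hcon
  · exact h4 (TS_anti P (by omega) hcon.2.1)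

/-- the `j`-th set -/
def CC (P : Par) (f : ℕ → ℕ) (j y : ℕ) : Prop := ∃ s, Cs P f s j y

open Classical in
/-- characteristic sequence of the `j`-th set -/
noncomputable def CB (P : Par) (f : ℕ → ℕ) (j y : ℕ) : Bool := decide (CC P f j y)

theorem Cb_iff {s j y : ℕ} : Cb P f s j y = true ↔ Cs P f s j y := by
  classical
  exact decide_eq_true_iff

theorem CB_iff {j y : ℕ} : CB P f j y = true ↔ CC P f j y := by
  classical
  exact decide_eq_true_iff

theorem Cb_settle (j b : ℕ) : ∃ N, ∀ s, N ≤ s → ∀ y < b, Cb P f s j y = CB P f j y := by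
  induction b with
  | zero => exact ⟨0, fun _ _ y hy => absurd hy (Nat.not_lt_zero y)⟩
  | succ b ih =>
    obtain ⟨N, hN⟩ := ih
    by_cases h : CC P f j b
    · obtain ⟨s₀, hs₀⟩ := h
      refine ⟨max N s₀, fun s hs y hy => ?_⟩
      rcases Nat.lt_succ_iff_lt_or_eq.1 hy with h1 | h1
      · exact hN s ((le_max_left _ _).trans hs) y h1
      · subst h1
        rw [Cb_iff.2 (Cs_mono ((le_max_right _ _).trans hs) hs₀), CB_iff.2 ⟨s₀, hs₀⟩]
    · refine ⟨N, fun s hs y hy => ?_⟩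
      rcases Nat.lt_succ_iff_lt_or_eq.1 hy with h1 | h1
      · exact hN s hs y h1
      · subst h1
        have h2 : Cb P f s j y = false := by
          rw [← Bool.not_eq_true, Cb_iff]
          exact fun hcon => h ⟨s, hcon⟩
        have h3 : CB P f j y = false := by
          rw [← Bool.not_eq_true, CB_iff]
          exact h
        rw [h2, h3]

/-- a true stage is in none of the sets -/
theorem not_CC_of_true {j t : ℕ} (h : Tru P t) : ¬ CC P f j t := by
  rintro ⟨s, hs⟩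
  exact hs.2.2.2.1 (h s)

/-! ### Protection -/

theorem prot {r n j s : ℕ} (hr : f r = 2 * n + 2) (hI : isTop P f r (kk n) (pp n))
    (hj : j ≠ kk n % 2) (hrs : r ≤ s) (hp : TS P (pp n) s) {y : ℕ} (hy : y < r)
    (hf0 : f 0 = 0) (h : Cs P f s j y) : Cs P f r j y := by
  obtain ⟨-, h2, h3, h4, h5⟩ := h
  refine ⟨hy, h2, h3, ?_, fun r' hr' => h5 r' (by omega)⟩
  intro hT
  -- `y` is believed at stage `r`
  have hy0 : y ≠ 0 := by
    intro h0
    subst h0
    rw [hf0] at h2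
    omega
  rcases lt_trichotomy y (pp n) with hlt | heq | hlt
  · rcases hI.1 with h6 | ⟨h6, -, h7⟩
    · omega
    · exact h4 (TS_trans P hlt.le (TS_anti P h6.le hT) hp)
  · rw [heq] at h4
    exact h4 hp
  · have hnlt : ¬ kk (f y / 2) < kk n := fun hcon => hI.2 y hy hlt ⟨⟨h2, hcon⟩, hT⟩
    have hne : kk (f y / 2) ≠ kk n := by
      intro hcon
      rw [hcon] at h3
      exact hj h3.symm
    have hrs' : r < s := by
      rcases Nat.eq_or_lt_of_le hrs with h6 | h6
      · rw [h6] at hT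
        exact absurd hT h4
      · exact h6
    refine h5 r hrs' ⟨hy, hT, by omega, by omega, ?_, ?_⟩
    · rw [hr, show (2 * n + 2) / 2 - 1 = n by omega]
      omega
    · rw [hr, show (2 * n + 2) / 2 - 1 = n by omega]
      exact hlt

theorem prot_pre (hf : IsRun P f) {r n s b : ℕ} (hr : f r = 2 * n + 2) (hb : b ≤ r) (hrs : r ≤ s)
    (hp : TS P (pp n) s) :
    pre (Cb P f r (1 - kk n % 2)) b = pre (Cb P f s (1 - kk n % 2)) b := by
  refine pre_congr fun y hy => ?_
  have hI := (legC_of hf hr).1.2.2.1.1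
  have hj : 1 - kk n % 2 ≠ kk n % 2 := by omega
  rw [Bool.eq_iff_iff, Cb_iff, Cb_iff]
  exact ⟨Cs_mono hrs, prot hr hI hj hrs hp (by omega) (run_zero hf)⟩

/-! ### Cancelled numbers -/

theorem not_cancelled (hf : IsRun P f) {n n' y r s : ℕ} (hy : f y = 2 * n + 1) (hyr : y < r)
    (hTy : TS P y r) (hr : f r = 2 * n' + 2) (hk : kk n' < kk n) (hp' : pp n' < y) (hrs : r < s)
    (hp : TS P (pp n) s) : ¬ Inst P f s n := by
  intro hI
  have hIy := (legA_of hf hy).1.2.2.1
  have hIr := (legC_of hf hr).1.2.2.1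
  have hTp' : TS P (pp n') s := by
    rcases hIr.1.1 with h0 | ⟨h1, h2, h3⟩
    · rw [h0]
      exact TS_zero P s
    · have h4 : TS P (pp n') y := TS_anti P hyr.le h3
      have h5 : AppLt f (kk n) (pp n') := ⟨h2.1, by have := h2.2; omega⟩
      have h6 : ¬ pp n < pp n' := fun hcon => hIy.1.2 (pp n') hp' hcon ⟨h5, h4⟩
      rcases Nat.eq_or_lt_of_le (not_lt.1 h6) with h7 | h7
      · rw [h7]
        exact hp
      · rcases hIy.1.1 with h8 | ⟨h8, -, h9⟩
        · omega
        · exact TS_trans P h7.le (TS_anti P h8.le h4) hp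
  have hcr : cc n < r := by
    rcases hIy.2.1 with h0 | ⟨h1, -⟩
    · rw [h0]
      omega
    · omega
  refine hI.2.2 r hrs hcr ⟨by omega, by omega, ?_, ?_⟩
  · rw [hr, show (2 * n' + 2) / 2 - 1 = n' by omega]
    exact hk
  · rw [hr, show (2 * n' + 2) / 2 - 1 = n' by omega]
    exact hTp'

/-- the dropped numbers of a box of a final instance are all in the set -/
theorem dropped (hf : IsRun P f) {n y : ℕ} (hy : f y = 2 * n + 1) (hyT : ¬ Tru P y)
    (hfin : ∀ N, ∃ s, N ≤ s ∧ TS P (pp n) s ∧ Inst P f s n) : CC P f (kk n % 2) y := by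
  unfold Tru at hyT
  push Not at hyT
  obtain ⟨s₀, hs₀⟩ := hyT
  refine ⟨max s₀ (y + 1), by omega, by omega, ?_, fun h => hs₀ (TS_anti P (le_max_left _ _) h),
    fun r hr hcon => ?_⟩
  · rw [hy, show (2 * n + 1) / 2 = n by omega]
  · obtain ⟨h1, h2, h3, h4, h5, h6⟩ := hcon
    obtain ⟨s, hs, hs1, hs2⟩ := hfin (r + 1)
    have hr' : f r = 2 * (f r / 2 - 1) + 2 := by omega
    rw [hy, show (2 * n + 1) / 2 = n by omega] at h5
    exact not_cancelled hf hy h1 h2 hr' h5 h6 (by omega) hs1 hs2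

end Pool.Agent.H651.SJ
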