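import Pool.Agent.H651.SJ.Prim

set_option autoImplicit false

namespace Pool.Agent.H651.SJ

open Nat.Partrec (Code)
open Pool.Agent.Helper227 (pre PP.ex_lt PP.all_lt)

variable (P : Par)

/-- `a` may be chosen after the history `L` -/
def okA (L : List ℕ) (a : ℕ) : Prop :=
  leg P (gf L) L.length a ∧ ∀ a' < Bd L.length, leg P (gf L) L.length a' → kA a ≤ kA a'

open Classical in
/-- the least action that may be chosen after the history `L`, or a bound -/
noncomputable def idxA (L : List ℕ) : ℕ :=
  (List.range (Bd L.length)).findIdx fun a => decide (okA P L a)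

open Classical in
/-- the action chosen after the history `L` -/
noncomputable def stp (L : List ℕ) : ℕ := if idxA P L < Bd L.length then idxA P L else 0

/-- the history -/
noncomputable def hist : ℕ → List ℕ
  | 0 => []
  | s + 1 => hist s ++ [stp P (hist s)]

/-- the run -/
noncomputable def run (s : ℕ) : ℕ := stp P (hist P s)

@[simp] theorem length_hist (s : ℕ) : (hist P s).length = s := by
  induction s with
  | zero => rfl
  | succ s ih => simp [hist, ih]

theorem gf_hist {s t : ℕ} (h : t < s) : gf (hist P s) t = run P t := by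
  induction s with
  | zero => omega
  | succ s ih =>
    unfold gf at *
    rw [hist]
    rcases Nat.lt_succ_iff_lt_or_eq.1 h with h1 | h1
    · rw [List.getD_append _ _ _ _ (by simpa using h1)]
      exact ih h1
    · subst h1
      rw [List.getD_append_right _ _ _ _ (by simp)]
      simp [run]

theorem leg_hist {s a : ℕ} : leg P (gf (hist P s)) s a ↔ leg P (run P) s a :=
  leg_congr fun _ ht => gf_hist P ht

theorem Cs_hist {s j y : ℕ} : Cs P (gf (hist P s)) s j y ↔ Cs P (run P) s j y :=
  Cs_congr fun _ ht => gf_hist P ht

theorem okA_idx {L : List ℕ} (h : idxA P L < Bd L.length) : okA P L (idxA P L) := by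
  classical
  unfold idxA at *
  have h1 : List.findIdx (fun a => decide (okA P L a)) (List.range (Bd L.length)) <
      (List.range (Bd L.length)).length := by simpa using h
  have h2 := List.findIdx_getElem (w := h1)
  simp only [List.getElem_range, decide_eq_true_eq] at h2
  exact h2

theorem idx_lt {L : List ℕ} {a : ℕ} (ha : a < Bd L.length) (h : okA P L a) :
    idxA P L < Bd L.length := by
  classical
  unfold idxA
  have h1 : List.findIdx (fun a => decide (okA P L a)) (List.range (Bd L.length)) <
      (List.range (Bd L.length)).length := by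
    rw [List.findIdx_lt_length]
    exact ⟨a, List.mem_range.2 ha, by simpa using h⟩
  simpa using h1

theorem not_leg_zero {f : ℕ → ℕ} {s : ℕ} : ¬ leg P f s 0 := by
  rintro (⟨h, -⟩ | ⟨h, -⟩)
  · exact absurd h (by decide)
  · exact h rfl

theorem isRun_run : IsRun P (run P) := by
  classical
  intro s
  refine ⟨fun h => ?_, ?_⟩
  · by_cases hc : idxA P (hist P s) < Bd (hist P s).length
    · have h1 : run P s = idxA P (hist P s) := by
        unfold run stp
        rw [if_pos hc]
      rw [h1]
      obtain ⟨h2, h3⟩ := okA_idx P hc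
      rw [length_hist] at h2 h3
      refine ⟨(leg_hist P).1 h2, fun a ha => h3 a (leg_lt ha) ((leg_hist P).2 ha)⟩
    · exfalso
      apply h
      unfold run stp
      rw [if_neg hc]
  · rintro ⟨a, ha⟩
    -- an action of least requirement
    have hex : ∃ k a, leg P (run P) s a ∧ kA a = k := ⟨_, a, ha, rfl⟩
    obtain ⟨b, hb, hk⟩ := Nat.find_spec hex
    have hmin : ∀ a', leg P (run P) s a' → kA b ≤ kA a' := by
      intro a' ha'
      rw [hk]
      exact Nat.find_min' hex ⟨a', ha', rfl⟩
    have hok : okA P (hist P s) b := by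
      unfold okA
      rw [length_hist]
      exact ⟨(leg_hist P).2 hb, fun a' _ ha' => hmin a' ((leg_hist P).1 ha')⟩
    have hlt := idx_lt P (by rw [length_hist]; exact leg_lt hb) hok
    have h1 : run P s = idxA P (hist P s) := by
      unfold run stp
      rw [if_pos hlt]
    rw [h1]
    intro h0
    have h2 := (okA_idx P hlt).1
    rw [h0] at h2
    exact not_leg_zero P h2

variable {P}

theorem Bd_prim : Primrec Bd := by
  unfold Bd
  have h1 : Primrec fun s : ℕ => s + 1 := Primrec.succ
  have h2 : Primrec fun s : ℕ => Nat.pair (s + 1) (s + 1) := Primrec₂.natPair.comp h1 h1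
  have h3 : Primrec fun s : ℕ => Nat.pair (Nat.pair s (Nat.pair (s + 1) (s + 1))) s :=
    Primrec₂.natPair.comp (Primrec₂.natPair.comp Primrec.id h2) Primrec.id
  exact Primrec.nat_add.comp (Primrec.nat_mul.comp (Primrec.const 2) h3) (Primrec.const 3)

theorem okA_prim (hP : P.Prim) : PrimrecRel (okA P) := by
  have hL : Primrec fun z : List ℕ × ℕ => z.1.length := Primrec.list_length.comp Primrec.fst
  have h1 : PrimrecPred fun z : List ℕ × ℕ => leg P (gf z.1) z.1.length z.2 :=
    leg_prim hP Primrec.fst hL Primrec.snd
  have h2 : PrimrecPred fun z : List ℕ × ℕ =>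
      ∀ a' < Bd z.1.length, leg P (gf z.1) z.1.length a' → kA z.2 ≤ kA a' := by
    refine PP.all_lt (p := fun (z : List ℕ × ℕ) a' => leg P (gf z.1) z.1.length a' →
      kA z.2 ≤ kA a') ?_ (Bd_prim.comp hL)
    refine imp_prim ?_ ?_
    · exact leg_prim hP (Primrec.fst.comp Primrec.fst) (hL.comp Primrec.fst) Primrec.snd
    · exact Primrec.nat_le.comp (kA_prim (Primrec.snd.comp Primrec.fst)) (kA_prim Primrec.snd)
  exact PrimrecPred.and h1 h2

theorem idxA_prim (hP : P.Prim) : Primrec (idxA P) := by
  classical
  unfold idxA
  refine Primrec.list_findIdx (p := fun L a => decide (okA P L a))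
    (Primrec.list_range.comp (Bd_prim.comp Primrec.list_length)) ?_
  have h := (okA_prim hP).decide
  exact h

theorem stp_prim (hP : P.Prim) : Primrec (stp P) := by
  classical
  unfold stp
  exact Primrec.ite (Primrec.nat_lt.comp (idxA_prim hP) (Bd_prim.comp Primrec.list_length))
    (idxA_prim hP) (Primrec.const 0)

theorem hist_prim (hP : P.Prim) : Primrec (hist P) := by
  have h1 : Primrec₂ fun (_ : ℕ) (L : List ℕ) => L ++ [stp P L] :=
    Primrec.list_append.comp Primrec.snd
      (Primrec.list_cons.comp ((stp_prim hP).comp Primrec.snd) (Primrec.const []))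
  refine (Primrec.nat_rec₁ [] h1).of_eq fun n => ?_
  induction n with
  | zero => rfl
  | succ n ih => rw [hist, ← ih]

theorem run_prim (hP : P.Prim) : Primrec (run P) := (stp_prim hP).comp (hist_prim hP)

end Pool.Agent.H651.SJ
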