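import Pool.Agent.H651.SJ.Ind

set_option autoImplicit false

namespace Pool.Agent.H651.SJ

open Nat.Partrec (Code)
open Pool.Agent.Helper227 (pre)

variable {P : Par} {f : ℕ → ℕ}

/-- what the opponent of the box `n` enumerates -/
def TT (P : Par) (f : ℕ → ℕ) (n : ℕ) : Set ℕ :=
  {v | ∃ b s, W s (kk n / 2) (Encodable.encode (pre (CB P f (1 - kk n % 2)) b, n, v)) = true}

theorem Tr_mem (hf : IsRun P f) {n t r : ℕ} (hp : Tru P (pp n)) (hr : f r = 2 * n + 2)
    (h : Tr P f r n t) : t ∈ TT P f n := by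
  obtain ⟨b, hb, hW⟩ := h
  refine ⟨b, r, ?_⟩
  obtain ⟨N, hN⟩ := Cb_settle (P := P) (f := f) (1 - kk n % 2) b
  rw [← pre_congr (hN (max N r) (le_max_left _ _)),
    ← prot_pre hf hr (by omega) (le_max_right N r) (hp _)]
  exact hW

theorem sat (hf : IsRun P f) {ψ : ℕ →. ℕ} (hψ : Computes P ψ)
    (hI : ∀ I, ∃ x m, I < P.hh x ∧ m ∈ ψ x ∧ m ∉ VV P f I x) (k : ℕ) :
    ∃ n t, kk n = k ∧ idb n < P.hh (xx n) ∧ ¬ CC P f (k % 2) t ∧ f t = 2 * n + 1 ∧
      (∀ t', f t' = 2 * n + 1 → t' ≠ t → CC P f (k % 2) t') ∧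
      (t ∈ TT P f n → ¬ (TT P f n).encard ≤ P.hh (xx n)) := by
  classical
  obtain ⟨hA, hC⟩ := all_fin hf hψ hI k
  obtain ⟨⟨n, t, hF⟩, hA', hC'⟩ := step_main hf hψ hI hA hC
  obtain ⟨M, hM⟩ := hF.ev
  have hfin : ∀ N, ∃ s, N ≤ s ∧ TS P (pp n) s ∧ Inst P f s n := by
    intro N
    obtain ⟨s, hs, hsT⟩ := exists_true P (max N (M + 1))
    exact ⟨s, by omega, hF.trup s, (hM s (by omega) hsT).2.2.1⟩
  refine ⟨n, t, hF.kkn, hF.idlt, not_CC_of_true hF.trut, hF.app, fun t' ht' hne => ?_, ?_⟩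
  · rw [← hF.kkn]
    refine dropped hf ht' (fun hcon => hne ?_) hfin
    exact app_unique hf ht' hF.app (le_max_left t' t) (le_max_right t' t) (hcon _) (hF.trut _)
  · intro htT hle
    -- at late true stages a confirmation is not wanted
    obtain ⟨BA, hBA⟩ := hA'.bddAbove
    obtain ⟨BC, hBC⟩ := hC'.bddAbove
    obtain ⟨b, s₀, hW⟩ := htT
    obtain ⟨N₁, hN₁⟩ := Cb_settle (P := P) (f := f) (1 - kk n % 2) b
    obtain ⟨s, hs, hsT⟩ := exists_true P
      (max (max (max BA BC) (max M t)) (max (max b s₀) N₁) + 1)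
    have hb := hM s (by omega) hsT
    have hTr : Tr P f s n t := by
      refine ⟨b, by omega, ?_⟩
      rw [pre_congr (hN₁ s (by omega))]
      exact W_mono (by omega) hW
    have hcnt : P.hh (xx n) ≤ cnt f n s := by
      by_contra hcon
      push Not at hcon
      have hlegC : leg P f s (2 * n + 2) := by
        right
        refine ⟨by omega, by omega, ?_⟩
        rw [show (2 * n + 2) / 2 - 1 = n by omega]
        exact ⟨hb, ⟨t, by omega, hF.app, hF.trut s, fun r _ hr => hF.noconf r hr, hTr⟩, hcon⟩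
      have hne : f s ≠ 0 := (hf s).2 ⟨_, hlegC⟩
      obtain ⟨hl, hmin⟩ := (hf s).1 hne
      have hle := hmin _ hlegC
      have hkA : kA (2 * n + 2) = k := by
        unfold kA
        rw [if_neg (by omega), show (2 * n + 2) / 2 - 1 = n by omega, hF.kkn]
      rw [hkA] at hle
      rcases hl with ⟨h1, h2⟩ | ⟨h0, h1, h2⟩
      · unfold kA at hle
        rw [if_pos h1] at hle
        have : s ≤ BA := hBA ⟨hsT, h1, by omega⟩
        omega
      · unfold kA at hle
        rw [if_neg (by omega)] at hle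
        have : s ≤ BC := hBC ⟨h0, h1, by omega, tru_top hsT h2.1.2.2.1.1⟩
        omega
    -- the confirmed numbers
    have hconf : ∀ r, f r = 2 * n + 2 → ∃ u < r, f u = 2 * n + 1 ∧ TS P u r ∧
        (∀ r' < r, u < r' → f r' ≠ 2 * n + 2) ∧ Tr P f r n u := fun r hr =>
      (legC_of hf hr).2.1
    choose! u hu using hconf
    have hmaps : Set.MapsTo u {r | f r = 2 * n + 2} (TT P f n \ {t}) := by
      intro r hr
      obtain ⟨h1, h2, h3, h4, h5⟩ := hu r hr
      refine ⟨Tr_mem hf hF.trup hr h5, ?_⟩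
      intro hcon
      rw [Set.mem_singleton_iff] at hcon
      rw [hcon] at h1
      exact hF.noconf r h1 hr
    have hinj : Set.InjOn u {r | f r = 2 * n + 2} := by
      intro r₁ h1 r₂ h2 h12
      by_contra hne
      rcases Nat.lt_or_gt_of_ne hne with hlt | hlt
      · have h3 := (hu r₁ h1).1
        rw [h12] at h3
        exact (hu r₂ h2).2.2.2.1 r₁ hlt h3 h1
      · have h3 := (hu r₂ h2).1
        rw [← h12] at h3
        exact (hu r₁ h1).2.2.2.1 r₂ hlt h3 h2
    have h1 := Set.encard_le_encard_of_injOn hmaps hinj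
    have h2 : ((P.hh (xx n) : ℕ) : ℕ∞) ≤ {r | f r = 2 * n + 2}.encard := by
      have h3 : (((Finset.range s).filter fun r => f r = 2 * n + 2 : Finset ℕ) : Set ℕ) ⊆
          {r | f r = 2 * n + 2} := by
        intro r hr
        simp only [Finset.coe_filter, Set.mem_ofPred_eq] at hr
        exact hr.2
      have h4 := Set.encard_le_encard h3
      rw [Set.encard_coe_eq_coe_finsetCard, ← cnt_eq] at h4
      exact le_trans (by exact_mod_cast hcnt) h4
    have h3 : (TT P f n \ {t}).encard + 1 = (TT P f n).encard :=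
      Set.encard_sdiff_singleton_add_one ⟨b, s₀, hW⟩
    have h4 : ((P.hh (xx n) : ℕ) : ℕ∞) + 1 ≤ (TT P f n).encard := by
      rw [← h3]
      exact add_le_add_left (h2.trans h1) 1
    have h5 := h4.trans hle
    exact absurd h5 (not_le.2 (ENat.lt_add_one_iff (ENat.natCast_ne_top _) |>.2 le_rfl))

end Pool.Agent.H651.SJ
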