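import Pool.Agent.H651.SJ.Defs

set_option autoImplicit false

namespace Pool.Agent.H651.SJ

open Nat.Partrec (Code)
open Pool.Agent.Helper227 (pre)

theorem W_mono {s t e y : ℕ} (h : s ≤ t) (hs : W s e y = true) : W t e y = true := by
  unfold W at *
  obtain ⟨z, hz⟩ := Option.isSome_iff_exists.1 hs
  have := Code.evaln_mono h (Option.mem_def.2 hz)
  rw [Option.mem_def.1 this]
  rfl

variable (P : Par)

/-! ### The least new element -/

theorem ell_le (s : ℕ) : ell P s ≤ s := by
  unfold ell
  have := List.findIdx_le_length (xs := List.range s) (p := fun y => P.En s y && !P.En (s - 1) y)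
  simpa using this

theorem ell_new {s : ℕ} (h : ell P s < s) :
    P.En s (ell P s) = true ∧ P.En (s - 1) (ell P s) = false := by
  unfold ell at *
  have h1 : List.findIdx (fun y => P.En s y && !P.En (s - 1) y) (List.range s) <
      (List.range s).length := by simpa using h
  have h2 := List.findIdx_getElem (w := h1)
  simp only [List.getElem_range, Bool.and_eq_true, Bool.not_eq_eq_eq_not, Bool.not_true] at h2
  exact h2

theorem ell_not {s y : ℕ} (h : y < ell P s) : ¬ (P.En s y = true ∧ P.En (s - 1) y = false) := by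
  have hl := ell_le P s
  unfold ell at h
  have h2 := List.not_of_lt_findIdx h
  simp only [List.getElem_range] at h2
  rintro ⟨h3, h4⟩
  rw [h3, h4] at h2
  exact absurd h2 (by decide)

theorem TS_of_le {s t : ℕ} (h : s ≤ t) : TS P t s := fun _ _ h1 => P.En_mono h h1

theorem TS_refl (s : ℕ) : TS P s s := TS_of_le P le_rfl

theorem TS_zero (s : ℕ) : TS P 0 s := by
  intro y hy
  have := ell_le P 0
  omega

theorem TS_anti {t s s' : ℕ} (h : s ≤ s') (h1 : TS P t s') : TS P t s :=
  fun y hy h2 => h1 y hy (P.En_mono h h2)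

theorem ell_le_of_TS {t s : ℕ} (h : t ≤ s) (h1 : TS P t s) : ell P t ≤ ell P s := by
  rcases Nat.eq_or_lt_of_le h with rfl | hlt
  · exact le_rfl
  · by_contra hcon
    push Not at hcon
    have h2 : ell P s < s := lt_of_lt_of_le hcon ((ell_le P t).trans h)
    obtain ⟨h3, h4⟩ := ell_new P h2
    have h5 := h1 _ hcon h3
    have h6 := P.En_mono (show t ≤ s - 1 by omega) h5
    rw [h4] at h6
    exact absurd h6 (by decide)

theorem TS_trans {t s s' : ℕ} (h : t ≤ s) (h1 : TS P t s) (h2 : TS P s s') : TS P t s' :=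
  fun y hy h3 => h1 y hy (h2 y (lt_of_lt_of_le hy (ell_le_of_TS P h h1)) h3)

theorem Tru_of {t s : ℕ} (h : t ≤ s) (h1 : TS P t s) (h2 : Tru P s) : Tru P t :=
  fun _ => TS_trans P h h1 (h2 _)

theorem Tru_zero : Tru P 0 := TS_zero P

/-- every initial segment of `E` settles down -/
theorem settle (L : ℕ) : ∃ N, ∀ s, N ≤ s → ∀ t, N ≤ t → ∀ y < L, P.En s y = P.En t y := by
  induction L with
  | zero => exact ⟨0, fun _ _ _ _ y hy => absurd hy (Nat.not_lt_zero y)⟩
  | succ L ih =>
    obtain ⟨N, hN⟩ := ih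
    by_cases h : ∃ s, P.En s L = true
    · obtain ⟨s₀, hs₀⟩ := h
      refine ⟨max N s₀, fun s hs t ht y hy => ?_⟩
      rcases Nat.lt_succ_iff_lt_or_eq.1 hy with h1 | h1
      · exact hN s ((le_max_left _ _).trans hs) t ((le_max_left _ _).trans ht) y h1
      · subst h1
        rw [P.En_mono ((le_max_right _ _).trans hs) hs₀, P.En_mono ((le_max_right _ _).trans ht) hs₀]
    · push Not at h
      refine ⟨N, fun s hs t ht y hy => ?_⟩
      rcases Nat.lt_succ_iff_lt_or_eq.1 hy with h1 | h1
      · exact hN s hs t ht y h1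
      · subst h1
        have h2 := h s
        have h3 := h t
        cases h4 : P.En s y <;> cases h5 : P.En t y <;> simp_all

theorem ell_large (L : ℕ) : ∃ N, ∀ t, N ≤ t → L ≤ ell P t := by
  obtain ⟨N, hN⟩ := settle P L
  refine ⟨max (N + 1) L, fun t ht => ?_⟩
  by_contra hcon
  push Not at hcon
  have h1 : ell P t < t := by omega
  obtain ⟨h2, h3⟩ := ell_new P h1
  rw [hN t (by omega) (t - 1) (by omega) _ hcon, h3] at h2
  exact absurd h2 (by decide)

theorem exists_true (N : ℕ) : ∃ t, N ≤ t ∧ Tru P t := by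
  classical
  by_cases h : ∃ y s, P.En s y = true ∧ P.En N y = false
  · have hy := Nat.find_spec h
    set y₀ := Nat.find h with hy₀
    obtain ⟨s₀, hs₀, hN⟩ := hy
    have hex : ∃ s, P.En s y₀ = true := ⟨s₀, hs₀⟩
    have ht := Nat.find_spec hex
    set t := Nat.find hex with htt
    have htN : N < t := by
      by_contra hcon
      push Not at hcon
      have := P.En_mono hcon ht
      rw [hN] at this
      exact absurd this (by decide)
    refine ⟨t, htN.le, fun s y hy hs => ?_⟩
    -- `ell t ≤ y₀`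
    have hell : ell P t ≤ y₀ := by
      by_contra hcon
      push Not at hcon
      refine ell_not P hcon ⟨ht, ?_⟩
      have := Nat.find_min hex (show t - 1 < t by omega)
      simpa using this
    have h1 : P.En N y = true := by
      by_contra hcon
      exact Nat.find_min h (lt_of_lt_of_le hy hell) ⟨s, hs, by simpa using hcon⟩
    exact P.En_mono htN.le h1
  · push Not at h
    refine ⟨N, le_rfl, fun s y _ hs => ?_⟩
    have := h y s hs
    simpa using this

/-! ### Computations -/

open Classical in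
/-- the set `E` -/
noncomputable def EE (y : ℕ) : Bool := decide (∃ s, P.En s y = true)

theorem EE_iff (y : ℕ) : EE P y = true ↔ ∃ s, P.En s y = true := by
  classical
  exact decide_eq_true_iff

theorem EE_eq_of_true {t y : ℕ} (h : Tru P t) (hy : y < ell P t) : P.En t y = EE P y := by
  cases h1 : P.En t y with
  | true =>
    symm
    exact (EE_iff P y).2 ⟨t, h1⟩
  | false =>
    symm
    by_contra hcon
    have h2 : EE P y = true := by simpa using hcon
    obtain ⟨s, hs⟩ := (EE_iff P y).1 h2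
    have h3 := h s y hy hs
    rw [h1] at h3
    exact absurd h3 (by decide)

theorem EE_settle (L : ℕ) : ∃ N, ∀ s, N ≤ s → ∀ y < L, P.En s y = EE P y := by
  obtain ⟨N, hN⟩ := settle P L
  refine ⟨N, fun s hs y hy => ?_⟩
  cases h1 : P.En s y with
  | true =>
    symm
    exact (EE_iff P y).2 ⟨s, h1⟩
  | false =>
    symm
    by_contra hcon
    have h2 : EE P y = true := by simpa using hcon
    obtain ⟨s', hs'⟩ := (EE_iff P y).1 h2
    have h3 := P.En_mono (le_max_left s' s) hs'
    rw [hN (max s' s) (hs.trans (le_max_right _ _)) s hs y hy, h1] at h3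
    exact absurd h3 (by decide)

theorem pre_congr {X Y : ℕ → Bool} {n : ℕ} (h : ∀ y < n, X y = Y y) : pre X n = pre Y n := by
  unfold pre
  refine List.map_congr_left fun y hy => h y (List.mem_range.1 hy)

/-- `P` computes the partial function `ψ` from `E` -/
def Computes (ψ : ℕ →. ℕ) : Prop :=
  (∀ a m n, m ≤ n → P.q a m → P.q a n) ∧ ∀ x m, m ∈ ψ x ↔ ∃ w r, P.q (pre (EE P) w, x, m) r

variable {P}

theorem MV_true {ψ : ℕ →. ℕ} (hψ : Computes P ψ) {t x m : ℕ} (ht : Tru P t) (h : MV P x t m) :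
    m ∈ ψ x := by
  obtain ⟨c, -, ⟨h1, h2⟩, -, rfl⟩ := h
  rw [hψ.2]
  refine ⟨c.unpair.1, c.unpair.2.unpair.2, ?_⟩
  rwa [pre_congr (fun y hy => EE_eq_of_true P ht (lt_of_lt_of_le hy h1))] at h2

theorem MV_of_cmp {x s : ℕ} (h : cmp P x s) : ∃ m, MV P x s m := by
  classical
  have h' : ∃ c, c < s ∧ cert P x s c := h
  have h1 := Nat.find_spec h'
  refine ⟨_, Nat.find h', h1.1, h1.2, fun c' hc' hcon => ?_, rfl⟩
  exact Nat.find_min h' hc' ⟨hc'.trans h1.1, hcon⟩

theorem MV_unique {x s m m' : ℕ} (h : MV P x s m) (h' : MV P x s m') : m = m' := by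
  obtain ⟨c, h1, h2, h3, rfl⟩ := h
  obtain ⟨c', h1', h2', h3', rfl⟩ := h'
  rcases lt_trichotomy c c' with hlt | heq | hlt
  · exact absurd h2 (h3' _ hlt)
  · rw [heq]
  · exact absurd h2' (h3 _ hlt)

theorem cmp_of_dom {ψ : ℕ →. ℕ} (hψ : Computes P ψ) {x m : ℕ} (h : m ∈ ψ x) :
    ∃ N, ∀ s, N ≤ s → cmp P x s := by
  rw [hψ.2] at h
  obtain ⟨w, r, hw⟩ := h
  obtain ⟨N₁, h1⟩ := ell_large P w
  obtain ⟨N₂, h2⟩ := EE_settle P w
  refine ⟨max (max N₁ N₂) (Nat.pair w (Nat.pair m r) + 1), fun s hs => ?_⟩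
  refine ⟨Nat.pair w (Nat.pair m r), by omega, ?_, ?_⟩
  · simp only [Nat.unpair_pair]
    exact h1 s (by omega)
  · simp only [Nat.unpair_pair]
    rw [pre_congr (h2 s (by omega))]
    exact hw

end Pool.Agent.H651.SJ
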